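import Pool.Agent.W938.Hyb.Fin

/-!
# Hybrid computations relative to a random oracle
-/

set_option autoImplicit false
set_option linter.unusedSectionVars false

namespace Pool.Agent.W938.Hyb

open Filter Pool.Agent.H620R2.Gauge Pool.Agent.NPC Pool.Agent.H889R3.RQ H568R2
open Pool.Agent.H628R3.RO (randomOracle)
open Pool.Agent.H572R2 (EE EE_congr)
open Pool.Agent.H572R4.QA (var rs DegLe)

theorem gates_bound {C : List Bool → List Gate} (hC : PolyTime (fun x => bits (C x))) :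
    ∃ b : Polynomial ℕ, ∀ x, (C x).length ≤ b.eval x.length ∧
      ∀ q k, Sum.inr (true, q, k) ∈ C x → q.length ≤ b.eval x.length := by
  obtain ⟨q, hq⟩ := (Pool.Agent.H622R2.poly_of_polyTime hC).sz_le
  refine ⟨q.comp (Polynomial.C 4 * Polynomial.X + Polynomial.C 1), fun x => ?_⟩
  have h0 : sz (C x) ≤ (q.comp (Polynomial.C 4 * Polynomial.X + Polynomial.C 1)).eval x.length := by
    have h1 := length_lt_sz (bits (C x))
    rw [bits_length] at h1
    refine h1.le.trans ((hq _).trans ?_)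
    rw [Polynomial.eval_comp]
    apply eval_mono
    have h2 := sz_listBool_le x
    simp only [Polynomial.eval_add, Polynomial.eval_mul, Polynomial.eval_C, Polynomial.eval_X]
    omega
  refine ⟨?_, ?_⟩
  · have := length_lt_sz (C x)
    omega
  · intro q' k hmem
    have h4 := sz_le_of_mem hmem
    have h5 := length_lt_sz q'
    rw [sz_inr, sz_pair, sz_pair] at h4
    omega

theorem countable_gates :
    {C : List Bool → List Gate | PolyTime (fun x => bits (C x))}.Countable := by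
  have h1 : {D : List Bool → List Bool | PolyTime D}.Countable := countable_polyTime
  refine Set.MapsTo.countable_of_injOn (f := fun C x => bits (C x))
    (t := {D : List Bool → List Bool | PolyTime D}) (fun C hC => hC) ?_ h1
  intro C _ C' _ h
  funext x
  exact bits_injective (congrFun h x)

lemma pairBits_length (x w : List Bool) : (pairBits x w).length = 2 * x.length + 1 + w.length := by
  unfold pairBits
  rw [List.length_append, List.length_cons, List.length_flatMap]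
  simp
  ring

lemma accH_local {A A' : Oracle} (C : List Bool → List Gate) (x : List Bool) (b m Λ q : ℕ)
    (hC : ∀ a : List Bool, a.length ≤ Λ → ∀ q' k, Sum.inr (true, q', k) ∈ C (pairBits x a) →
      q'.length ≤ q) (hA : ∀ z : List Bool, z.length ≤ q → A z = A' z) :
    ∀ (n : ℕ) (a : List Bool) (u : (Fin b → Bool) → ℝ), a.length + n * m ≤ Λ →
      accH A C x b m n a u = accH A' C x b m n a u := by
  intro n
  induction n with
  | zero => intro a u _; rfl
  | succ n ih =>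
    intro a u h
    simp only [accH]
    refine Finset.sum_congr rfl fun s _ => ?_
    have hlen : (List.ofFn s ++ a).length + n * m ≤ Λ := by
      rw [List.length_append, List.length_ofFn]
      calc m + a.length + n * m = a.length + (n + 1) * m := by ring
        _ ≤ Λ := h
    rw [ih _ _ hlen]
    congr 1
    funext t
    rw [circAct_local (A' := A') (C (pairBits x a)) (fun q' k hq y hy => hA y (by
      rw [hy]
      exact hC a ((Nat.le_add_right _ _).trans h) q' k hq))]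

/-- Fix a bit of the oracle. -/
def Adm.fix {N : ℕ} (Z : Adm N) (j : Fin N) (c : Bool) : Adm N where
  O := fun y => Z.O (Function.update y j c)
  h := by
    intro z
    rcases Z.h z with ⟨b, hb⟩ | ⟨i, hi⟩
    · exact Or.inl ⟨b, fun y => hb _⟩
    · by_cases hij : i = j
      · subst hij
        exact Or.inl ⟨c, fun y => by rw [hi]; simp⟩
      · exact Or.inr ⟨i, fun y => by rw [hi, Function.update_of_ne hij]⟩

/-- Decision trees for hybrid computations. -/
theorem tree_hybrid {N : ℕ} (Z : Adm N) (C : List Bool → List Gate) (x : List Bool) (b m n L : ℕ)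
    (hL : ∀ a : List Bool, a.length ≤ n * m → (C (pairBits x a)).length ≤ L)
    (hC : ∀ a, OneRound (C (pairBits x a))) (η : ℝ) (hη : 0 < η) (hη1 : η ≤ 1) :
    ∃ T : DTree (Fin N), (T.depth : ℝ) ≤ 2 ^ 52 * (((2 * (n * (L + 1)) : ℕ) : ℝ) + 1)
        * (2 ^ 42 * (((n * (L + 1) : ℕ) : ℝ) + 1) ^ 18 * ((2 : ℝ) ^ b) ^ 4) / η ^ 9 ∧
      EE (bad (fa Z C x b m n) T) ≤ η := by
  have hb1 : (1 : ℝ) ≤ 2 ^ b := one_le_pow₀ (by norm_num)
  have hT1 : (1 : ℝ) ≤ ((n * (L + 1) : ℕ) : ℝ) + 1 := by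
    have : (0 : ℝ) ≤ ((n * (L + 1) : ℕ) : ℝ) := Nat.cast_nonneg _
    linarith
  refine tree_family {f | ∃ Z' : Adm N, f = fa Z' C x b m n} _ (2 * (n * (L + 1))) ?_ ?_ ?_ ?_ ?_
    (fa Z C x b m n) ⟨Z, rfl⟩ η hη hη1
  · have h1 : (1 : ℝ) ≤ (((n * (L + 1) : ℕ) : ℝ) + 1) ^ 18 := one_le_pow₀ hT1
    have h2 : (1 : ℝ) ≤ ((2 : ℝ) ^ b) ^ 4 := one_le_pow₀ hb1
    have h3 : (1 : ℝ) ≤ 2 ^ 42 * (((n * (L + 1) : ℕ) : ℝ) + 1) ^ 18 := by nlinarith
    nlinarith
  · rintro f ⟨Z', rfl⟩ j c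
    exact ⟨Z'.fix j c, rfl⟩
  · rintro f ⟨Z', rfl⟩
    exact (degle Z' C x n L hL).2
  · rintro f ⟨Z', rfl⟩
    exact (degle Z' C x n L hL).1
  · rintro f ⟨Z', rfl⟩ hv
    obtain ⟨hT, l, hl⟩ := infl Z' C x n L hL hC hv
    refine ⟨l, le_trans ?_ hl⟩
    have hT' : (1 : ℝ) ≤ ((n * (L + 1) : ℕ) : ℝ) := by exact_mod_cast hT
    have hT0 : (0 : ℝ) < ((n * (L + 1) : ℕ) : ℝ) := by linarith
    rw [div_pow]
    have e1 : (var (fa Z' C x b m n) ^ 4) ^ 2 = var (fa Z' C x b m n) ^ 8 := by ring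
    have e2 : (2 ^ 21 * ((n * (L + 1) : ℕ) : ℝ) ^ 9 * ((2 : ℝ) ^ b) ^ 2) ^ 2
        = 2 ^ 42 * ((n * (L + 1) : ℕ) : ℝ) ^ 18 * ((2 : ℝ) ^ b) ^ 4 := by ring
    rw [e1, e2]
    apply div_le_div_of_nonneg_left (by positivity) (by positivity)
    gcongr
    linarith

/-- The devices. -/
def Dev : Type := {g : (List Bool → List Gate) × Polynomial ℕ //
  PolyTime (fun z => bits (g.1 z)) ∧ ∀ x a, OneRound (g.1 (pairBits x a))}

theorem countable_poly : Countable (Polynomial ℕ) := by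
  have : Function.Injective (fun p : Polynomial ℕ => (p.toFinsupp.coeff : ℕ →₀ ℕ)) := by
    intro p q h
    ext n
    exact DFunLike.congr_fun h n
  exact this.countable

instance : Countable Dev := by
  have h0 : Countable (Polynomial ℕ) := countable_poly
  have h1 : {g : (List Bool → List Gate) × Polynomial ℕ |
      PolyTime (fun z => bits (g.1 z)) ∧ ∀ x a, OneRound (g.1 (pairBits x a))}.Countable := by
    refine (countable_gates.prod (Set.countable_univ (α := Polynomial ℕ))).mono ?_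
    rintro ⟨C, p⟩ ⟨h, _⟩
    exact ⟨h, Set.mem_univ _⟩
  exact h1.to_subtype

/-- The acceptance probability of a device. -/
noncomputable def pd (g : Dev) (x : List Bool) (A : Oracle) : ℝ :=
  accH A g.1.1 x (Nat.log 2 (g.1.2.eval x.length)) (g.1.2.eval x.length)
    (g.1.2.eval x.length) [] (initSt _)

open Polynomial in
theorem dev_tree (g : Dev) (k : ℕ) : ∃ d : ℕ, ∀ x : List Bool, ∃ T : DTree (List Bool),
    T.depth ≤ (x.length + 2) ^ d ∧ MeasurableSet (WrongA (pd g x) T) ∧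
    randomOracle.real (WrongA (pd g x) T) ≤ 1 / ((x.length : ℝ) + 2) ^ k := by
  obtain ⟨⟨C, p⟩, hpoly, hone⟩ := g
  obtain ⟨B, hB⟩ := gates_bound hpoly
  set Bc : Polynomial ℕ := B.comp (2 * X + 1 + p * p) with hBc
  obtain ⟨d, hd⟩ := poly_bound (Polynomial.C (2 ^ 94) * (2 * (p * (Bc + 1)) + 1)
    * (p * (Bc + 1) + 1) ^ 18 * (p + 1) ^ 4 * (X + 2) ^ (9 * k))
  refine ⟨d, fun x => ?_⟩
  set P := p.eval x.length with hP
  set L := Bc.eval x.length with hL
  have hLe : L = B.eval (2 * x.length + 1 + P * P) := by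
    rw [hL, hBc, Polynomial.eval_comp]
    simp [hP]
  have hlen : ∀ a : List Bool, a.length ≤ P * P →
      (C (pairBits x a)).length ≤ L ∧
        ∀ q k, Sum.inr (true, q, k) ∈ C (pairBits x a) → q.length ≤ L := by
    intro a ha
    have h1 : (pairBits x a).length ≤ 2 * x.length + 1 + P * P := by
      rw [pairBits_length]; omega
    have h2 : B.eval (pairBits x a).length ≤ L := by
      rw [hLe]; exact eval_mono B h1
    obtain ⟨h3, h4⟩ := hB (pairBits x a)
    exact ⟨h3.trans h2, fun q k h => (h4 q k h).trans h2⟩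
  have hη0 : (0 : ℝ) < 1 / ((x.length : ℝ) + 2) ^ k := by positivity
  have hη1 : 1 / ((x.length : ℝ) + 2) ^ k ≤ 1 := by
    rw [div_le_one (by positivity)]
    refine one_le_pow₀ ?_
    have : (0 : ℝ) ≤ x.length := Nat.cast_nonneg _
    linarith
  obtain ⟨T, hT1, hT2, hT3⟩ := tree_oracle (pd ⟨⟨C, p⟩, hpoly, hone⟩ x) L
    (2 ^ 52 * (((2 * (P * (L + 1)) : ℕ) : ℝ) + 1)
        * (2 ^ 42 * (((P * (L + 1) : ℕ) : ℝ) + 1) ^ 18 * ((2 : ℝ) ^ (Nat.log 2 P)) ^ 4)
          / (1 / ((x.length : ℝ) + 2) ^ k) ^ 9) (1 / ((x.length : ℝ) + 2) ^ k)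
    (fun A A' hAA => accH_local C x _ P (P * P) L (fun a ha => (hlen a ha).2) hAA P [] _ (by simp))
    (fun N Z => tree_hybrid Z C x (Nat.log 2 P) P P L (fun a ha => (hlen a ha).1)
      (fun a => hone x a) _ hη0 hη1)
  refine ⟨T, ?_, hT2, hT3⟩
  have h1 := hd x.length
  have hM : (2 : ℕ) ^ (Nat.log 2 P) ≤ P + 1 := by
    rcases Nat.eq_zero_or_pos P with h | h
    · rw [h]; simp
    · exact (Nat.pow_log_le_self 2 (by omega)).trans (Nat.le_succ _)
  have h2 : (T.depth : ℝ) ≤ ((2 ^ 94 * (2 * (P * (L + 1)) + 1) * (P * (L + 1) + 1) ^ 18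
      * (P + 1) ^ 4 * (x.length + 2) ^ (9 * k) : ℕ) : ℝ) := by
    refine hT1.trans ?_
    have hM' : (2 : ℝ) ^ (Nat.log 2 P) ≤ (P : ℝ) + 1 := by exact_mod_cast hM
    have e : (1 / ((x.length : ℝ) + 2) ^ k) ^ 9 = 1 / ((x.length : ℝ) + 2) ^ (9 * k) := by
      rw [div_pow, one_pow, ← pow_mul, mul_comm k 9]
    rw [e, div_div_eq_mul_div, div_one]
    push_cast
    calc 2 ^ 52 * (2 * ((P : ℝ) * (L + 1)) + 1) * (2 ^ 42 * ((P : ℝ) * (L + 1) + 1) ^ 18
          * (2 ^ Nat.log 2 P) ^ 4) * ((x.length : ℝ) + 2) ^ (9 * k)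
        ≤ 2 ^ 52 * (2 * ((P : ℝ) * (L + 1)) + 1) * (2 ^ 42 * ((P : ℝ) * (L + 1) + 1) ^ 18
          * ((P : ℝ) + 1) ^ 4) * ((x.length : ℝ) + 2) ^ (9 * k) := by gcongr
      _ = _ := by ring
  have h3 : T.depth ≤ 2 ^ 94 * (2 * (P * (L + 1)) + 1) * (P * (L + 1) + 1) ^ 18
      * (P + 1) ^ 4 * (x.length + 2) ^ (9 * k) := by exact_mod_cast h2
  refine h3.trans (le_trans (le_of_eq ?_) h1)
  simp [hP, hL]

open Classical in
/-- The theorem for hybrid computations. -/
theorem hybrid_final (k : ℕ) : ∃ T : ℕ → List Bool → DTree (List Bool),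
    (∀ i, ∃ d : ℕ, ∀ x, (T i x).depth ≤ (x.length + 2) ^ d) ∧
    (∀ w : List Bool → ℝ, (∀ x, 0 ≤ w x) → (∀ n, ∑ x : Fin n → Bool, w (List.ofFn x) ≤ 1) →
      ∀ᵐ A ∂randomOracle, ∀ L : Set (List Bool), IsHybrid A L → ∃ i, ∀ᶠ n : ℕ in atTop,
        (∑ x : Fin n → Bool, if ((T i (List.ofFn x)).eval A = true ↔ List.ofFn x ∈ L) then 0
          else w (List.ofFn x)) * n ^ k ≤ 1) ∧
    (∀ S : Set (List Bool), (∀ n, 1 ≤ n → {x : Fin n → Bool | List.ofFn x ∈ S}.ncard ≤ n ^ k) →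
      ∀ᵐ A ∂randomOracle, ∀ L : Set (List Bool), IsHybrid A L → ∃ i, ∀ᶠ n : ℕ in atTop,
        ∀ x : Fin n → Bool, List.ofFn x ∈ S →
          ((T i (List.ofFn x)).eval A = true ↔ List.ofFn x ∈ L)) :=
  languages pd dev_tree IsHybrid
    (fun A L ⟨C, p, h1, h2, h3⟩ => ⟨⟨⟨C, p⟩, h1, h2⟩, h3⟩) k

end Pool.Agent.W938.Hyb
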