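import Pool.Agent.W938.Hyb.GateM
import Pool.Agent.H620R2.GaugeQ.Q1
import Pool.Agent.H620R2.GaugeQ.Q8

/-!
# Circuits: linearity, norms and the weights of the questions
-/

set_option autoImplicit false
set_option linter.unusedSectionVars false

namespace Pool.Agent.W938.Hyb

open Finset Pool.Agent.H722R2.AA Pool.Agent.H746R2.AA Pool.Agent.H703R2.AA
open Pool.Agent.H620R2.Gauge

variable {m N : ℕ}

lemma circAct_append (A : Oracle) : ∀ (l l' : List Gate) (ψ : (Fin m → Bool) → ℝ),
    circAct A (l ++ l') ψ = circAct A l' (circAct A l ψ)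
  | [], _, _ => rfl
  | g :: l, l', ψ => circAct_append A l l' (gateAct A g ψ)

lemma gateAct_lin {τ : Type*} (A : Oracle) (g : Gate) (T : Finset τ) (c : τ → ℝ)
    (ψ : τ → (Fin m → Bool) → ℝ) (s : Fin m → Bool) :
    gateAct A g (fun s => ∑ t ∈ T, c t * ψ t s) s = ∑ t ∈ T, c t * gateAct A g (ψ t) s := by
  rcases g with i | ⟨u, q, k⟩
  · simp only [gateAct]
    split_ifs with h
    · rw [Finset.mul_sum, ← Finset.sum_add_distrib, Finset.sum_div]
      exact Finset.sum_congr rfl fun t _ => by ring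
    · rw [Finset.mul_sum, ← Finset.sum_add_distrib, Finset.sum_div]
      exact Finset.sum_congr rfl fun t _ => by ring
    · rfl
  · cases u <;> rfl

lemma circAct_lin {τ : Type*} (A : Oracle) (T : Finset τ) (c : τ → ℝ) : ∀ (l : List Gate)
    (ψ : τ → (Fin m → Bool) → ℝ) (s : Fin m → Bool),
    circAct A l (fun s => ∑ t ∈ T, c t * ψ t s) s = ∑ t ∈ T, c t * circAct A l (ψ t) s
  | [], _, _ => rfl
  | g :: l, ψ, s => by
    simp only [circAct]
    have e : gateAct A g (fun s => ∑ t ∈ T, c t * ψ t s) = fun s => ∑ t ∈ T, c t * gateAct A g (ψ t) s :=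
      funext fun s => gateAct_lin A g T c ψ s
    rw [e]
    exact circAct_lin A T c l (fun t => gateAct A g (ψ t)) s

lemma circAct_zero (A : Oracle) (l : List Gate) :
    circAct A l (fun _ : Fin m → Bool => (0 : ℝ)) = fun _ => 0 := by
  funext s
  have := circAct_lin A (∅ : Finset Unit) (fun _ => 0) l (fun _ _ => 0) s
  simpa using this

lemma nsq_gateAct (A : Oracle) (g : Gate) (ψ : (Fin m → Bool) → ℝ) :
    nsq (gateAct A g ψ) = nsq ψ := gateAct_norm A g ψ

lemma nsq_circAct (A : Oracle) : ∀ (l : List Gate) (ψ : (Fin m → Bool) → ℝ),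
    nsq (circAct A l ψ) = nsq ψ
  | [], _ => rfl
  | g :: l, ψ => by
    rw [circAct, nsq_circAct A l, nsq_gateAct]

lemma gateAct_free {A A' : Oracle} {g : Gate} (hg : Free g) (ψ : (Fin m → Bool) → ℝ) :
    gateAct A g ψ = gateAct A' g ψ :=
  gateAct_local (fun q k h => absurd h (hg q k)) ψ

lemma circAct_free {A A' : Oracle} (l : List Gate) (hl : ∀ g ∈ l, Free g) (ψ : (Fin m → Bool) → ℝ) :
    circAct A l ψ = circAct A' l ψ :=
  circAct_local l (fun q k h => absurd rfl (hl _ h q k)) ψ

namespace Adm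

variable (Z : Adm N)

lemma rd_Xf_ne {k : ℕ} {i : ℕ} (h : i ≠ k) (s : Fin m → Bool) : rd (Xf k s) i = rd s i := by
  unfold rd Xf
  split_ifs with h1 h2
  · rw [Function.update_of_ne]
    intro h3
    exact h (congrArg Fin.val h3)
  · rfl
  · rfl

lemma rd_clr_ne {k : ℕ} {i : ℕ} (h : i ≠ k) (s : Fin m → Bool) : rd (clr k s) i = rd s i := by
  unfold rd clr
  split_ifs with h1 h2
  · rw [Function.update_of_ne]
    intro h3
    exact h (congrArg Fin.val h3)
  · rfl
  · rfl

lemma kq_eq {q : List ℕ} {k : ℕ} (h : k ∉ q) (s : Fin m → Bool) :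
    Z.kq q k s = Z.kd (q.map (rd s)) := by
  unfold kq
  congr 1
  refine List.map_congr_left fun i hi => rd_clr_ne ?_ s
  rintro rfl
  exact h hi

lemma kq_Xf' {q : List ℕ} {k k' : ℕ} (h : k ∉ q) (h' : k' ∉ q) (s : Fin m → Bool) :
    Z.kq q k (Xf k' s) = Z.kq q k s := by
  rw [kq_eq Z h, kq_eq Z h]
  congr 1
  refine List.map_congr_left fun i hi => rd_Xf_ne ?_ s
  rintro rfl
  exact h' hi

/-- A gate of the same round does not change the weights. -/
lemma wt_gate (A : Oracle) {q : List ℕ} {k : ℕ} (q' : List ℕ) {k' : ℕ} (h : k ∉ q) (h' : k' ∉ q)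
    (l : Fin N) (ψ : (Fin m → Bool) → ℝ) :
    Z.wt (Sum.inr (true, q, k)) l (gateAct A (Sum.inr (true, q', k')) ψ)
      = Z.wt (Sum.inr (true, q, k)) l ψ := by
  simp only [wt, gateAct]
  refine sum_eq_of_pair k' _ _ fun s => ?_
  rw [kq_Xf' Z h h', flipIf_eq, flipIf_eq, clr_Xf, Xf_Xf]
  by_cases h1 : Z.kq q k s = Sum.inr l
  · simp only [h1, if_true]
    split_ifs
    · ring
    · rfl
  · simp only [h1, if_false]

lemma wt_round (A : Oracle) {q : List ℕ} {k : ℕ} (h : k ∉ q) (l : Fin N) : ∀ (R : List Gate)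
    (_ : ∀ g ∈ R, ∃ q' k', g = Sum.inr (true, q', k') ∧ k' ∉ q) (ψ : (Fin m → Bool) → ℝ),
    Z.wt (Sum.inr (true, q, k)) l (circAct A R ψ) = Z.wt (Sum.inr (true, q, k)) l ψ
  | [], _, _ => rfl
  | g :: R, hR, ψ => by
    obtain ⟨q', k', rfl, hk'⟩ := hR g List.mem_cons_self
    rw [circAct, wt_round A h l R (fun g hg => hR g (List.mem_cons_of_mem _ hg)), wt_gate Z A q' h hk']

/-- The weights in the first round do not depend on the oracle. -/
lemma wt_first {A A' : Oracle} {done todo : List Gate} {g : Gate}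
    (hl : OneRound (done ++ g :: todo)) (hg : ¬ Free g) (l : Fin N) (ψ : (Fin m → Bool) → ℝ) :
    Z.wt g l (circAct A done ψ) = Z.wt g l (circAct A' done ψ) := by
  obtain ⟨G, R, G', hl, hG, hR, hG'⟩ := hl
  rw [List.append_assoc] at hl
  obtain ⟨q, k, rfl⟩ : ∃ q k, g = Sum.inr (true, q, k) := by
    unfold Free at hg
    push Not at hg
    exact hg
  -- the position of the gate
  have hnG' : Sum.inr (true, q, k) ∉ G' := fun h => hG' _ h q k rfl
  have hnG : Sum.inr (true, q, k) ∉ G := fun h => hG _ h q k rfl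
  rcases List.append_eq_append_iff.1 hl with ⟨as, h1, h2⟩ | ⟨cs, h1, h2⟩
  · -- `G = done ++ as`
    cases as with
    | nil =>
      rw [List.append_nil] at h1
      rw [h1] at hG
      rw [circAct_free done hG]
    | cons a as =>
      rw [List.cons_append, List.cons.injEq] at h2
      exact absurd (by rw [h1, ← h2.1]; simp) hnG
  · -- `done = G ++ cs`
    rcases List.append_eq_append_iff.1 h2 with ⟨es, h3, h4⟩ | ⟨es, h3, h4⟩
    · -- `cs = R ++ es`
      exact absurd (by rw [h4]; simp) hnG'
    · -- `R = cs ++ es`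
      cases es with
      | nil =>
        rw [List.nil_append] at h4
        exact absurd (by rw [← h4]; simp) hnG'
      | cons e es =>
        rw [List.cons_append, List.cons.injEq] at h4
        have hgR : Sum.inr (true, q, k) ∈ R := by rw [h3, ← h4.1]; simp
        have hkq : k ∉ q := hR.2 q k q k hgR hgR
        have hcs : ∀ g ∈ cs, ∃ q' k', g = Sum.inr (true, q', k') ∧ k' ∉ q := by
          intro g hg
          have hgR' : g ∈ R := by rw [h3]; exact List.mem_append_left _ hg
          have h5 := hR.1 g hgR'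
          unfold Free at h5
          push Not at h5
          obtain ⟨q', k', rfl⟩ := h5
          exact ⟨q', k', rfl, hR.2 q' k' q k hgR' hgR⟩
        rw [h1, circAct_append, circAct_append, wt_round Z A hkq l cs hcs,
          wt_round Z A' hkq l cs hcs, circAct_free G hG]

lemma sum_wt_le (g : Gate) (ψ : (Fin m → Bool) → ℝ) : ∑ l, Z.wt g l ψ ≤ nsq ψ := by
  unfold wt
  rcases g with i | ⟨u, q, k⟩
  · simp only [Finset.sum_const_zero]; exact nsq_nonneg ψ
  · cases u with
    | false => simp only [Finset.sum_const_zero]; exact nsq_nonneg ψ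
    | true =>
      simp only
      rw [Finset.sum_comm]
      unfold nsq
      refine Finset.sum_le_sum fun s _ => ?_
      cases hk : Z.kq q k s with
      | inl b =>
        simp only [reduceCtorEq, if_false, Finset.sum_const_zero]
        positivity
      | inr l0 =>
        simp only [Sum.inr.injEq]
        simp

/-- The weights of a superposition. -/
lemma wt_lin {τ : Type*} [Fintype τ] (g : Gate) (l : Fin N) (c : τ → ℝ)
    (ψ : τ → (Fin m → Bool) → ℝ) :
    Z.wt g l (fun s => ∑ t, c t * ψ t s) ≤ (∑ t, c t ^ 2) * ∑ t, Z.wt g l (ψ t) := by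
  unfold wt
  rcases g with i | ⟨u, q, k⟩
  · simp
  · cases u with
    | false => simp
    | true =>
      simp only
      rw [Finset.sum_comm, Finset.mul_sum]
      refine Finset.sum_le_sum fun s _ => ?_
      split_ifs
      · exact Finset.sum_mul_sq_le_sq_mul_sq _ _ _
      · simp

end Adm

end Pool.Agent.W938.Hyb
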