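import Pool.Agent.H620R2.GaugeQ.Defs

/-!
# Classical polynomial-time control of quantum circuits with one round of questions

The classical computer repeatedly chooses a quantum circuit, which depends on everything measured
so far; the circuit asks the oracle one round of (polynomially many) parallel questions, in
superposition, and afterwards all its qubits except for the first `b` ones are measured and reset.
-/

set_option autoImplicit false

namespace Pool.Agent.W938.Hyb

open Pool.Agent.NPC Pool.Agent.H620R2.Gauge

/-- The gate is not an oracle gate. -/
def Free (g : Gate) : Prop := ∀ q k, g ≠ Sum.inr (true, q, k)

/-- `R` is a round of parallel questions: all gates of `R` are oracle gates, and no gate of `R`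
changes a qubit in which a gate of `R` finds its question. -/
def Round (R : List Gate) : Prop :=
  (∀ g ∈ R, ¬ Free g) ∧
  ∀ q k q' k', Sum.inr (true, q, k) ∈ R → Sum.inr (true, q', k') ∈ R → k ∉ q'

/-- The circuit asks only one round of parallel questions (before and after it, there are only
gates without questions to the oracle). -/
def OneRound (l : List Gate) : Prop :=
  ∃ G R G', l = G ++ R ++ G' ∧ (∀ g ∈ G, Free g) ∧ Round R ∧ ∀ g ∈ G', Free g

/-- The state of `b + m` qubits in which the first `b` qubits are in the state `u` and the other
`m` qubits are `0`. -/
def load {b : ℕ} (m : ℕ) (u : (Fin b → Bool) → ℝ) : (Fin (b + m) → Bool) → ℝ :=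
  fun s => if ∀ j : Fin m, s (Fin.natAdd b j) = false then u (fun i => s (Fin.castAdd m i)) else 0

/-- The probability of acceptance. The computer has `n` circuits left to run; `a` is the record of
everything measured so far, the most recent outcomes first; `u` is the state of the `b` qubits of
the quantum memory (its squared norm is the probability of the record `a`). The next circuit has
the gates `C ⟨x, a⟩`; it is applied to the `b` qubits of the memory and `m` further qubits which
are `0`; then the `m` further qubits are measured, with the outcome `s`. After the last circuit the
input `x` is accepted if the first bit of the record is `1`. -/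
noncomputable def accH (A : Oracle) (C : List Bool → List Gate) (x : List Bool) (b m : ℕ) :
    ℕ → List Bool → ((Fin b → Bool) → ℝ) → ℝ
  | 0, a, u => if a.head? = some true then ∑ t, u t ^ 2 else 0
  | n + 1, a, u => ∑ s : Fin m → Bool, accH A C x b m n (List.ofFn s ++ a)
      (fun t => circAct A (C (pairBits x a)) (load m u) (Fin.append t s))

/-- The language `L` is decided with bounded error by a classical polynomial-time computation which
controls a quantum computer with a small memory and asks one round of questions per circuit: for
some polynomial `p`, on inputs `x` of length `n`, it runs `p n` circuits one after the other, each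
of them on `p n` fresh qubits and the `⌊log₂ (p n)⌋` qubits of the quantum memory. The gates of the
next circuit are computed in polynomial time from the input and the record of all measurements. -/
def IsHybrid (A : Oracle) (L : Set (List Bool)) : Prop :=
  ∃ (C : List Bool → List Gate) (p : Polynomial ℕ), PolyTime (fun z => bits (C z)) ∧
    (∀ x a, OneRound (C (pairBits x a))) ∧
    ∀ x, (x ∈ L → 2 / 3 ≤ accH A C x (Nat.log 2 (p.eval x.length)) (p.eval x.length)
        (p.eval x.length) [] (initSt _)) ∧
      (x ∉ L → accH A C x (Nat.log 2 (p.eval x.length)) (p.eval x.length)
        (p.eval x.length) [] (initSt _) ≤ 1 / 3)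

end Pool.Agent.W938.Hyb
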