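import Pool.Agent.W938.Hyb.HMach
import Pool.Agent.H889R3.RQ.QSim
import Pool.Agent.H889R3.RQ.Stmts
import Pool.Agent.H116R3.RQ.B3

/-!
# The influence theorem for hybrid computations
-/

set_option autoImplicit false
set_option linter.unusedSectionVars false

namespace Pool.Agent.W938.Hyb

open Finset Pool.Agent.H722R2.AA Pool.Agent.H746R2.AA Pool.Agent.H703R2.AA
open Pool.Agent.H620R2.Gauge
open Pool.Agent.NPC (pairBits PolyTime bits)
open Pool.Agent.H572R2 (EE flp)
open Pool.Agent.H572R4.QA (var rs DegLe)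
open Pool.Agent.H889R3.RQ (inf2 tot)

variable {b m N : ℕ}
variable (Z : Adm N) (C : List Bool → List Gate) (x : List Bool)

/-- The initial control state. -/
def c0 (n : ℕ) : Ct := ([], n, [], C (pairBits x []))

lemma nsq_init : nsq (load m (initSt b)) = 1 := by
  rw [nsq_load]
  exact Pool.Agent.H116R3.RQ.initSt_norm b

/-- The process. -/
noncomputable def HP (b m n : ℕ) : Pr (Fin N) (Fin (b + m) → Bool) (Fin m → Bool) :=
  (HM Z C x b m).pr (c0 C x n) (load m (initSt b)) nsq_init

lemma inv (n : ℕ) (y : Fin N → ℤˣ) : ∀ (h : List (Fin m → Bool)) (a : List Bool) (k : ℕ)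
    (d t : List Gate), (HM Z C x b m).ctl (c0 C x n) h = (a, k + 1, d, t) →
    d ++ t = C (pairBits x a) ∧
      ∃ u : (Fin b → Bool) → ℝ, (HP Z C x b m n).A h y = circAct (Z.O (bx y)) d (load m u) := by
  intro h
  induction h with
  | nil =>
    intro a k d t hc
    have hc' : (([], n, [], C (pairBits x [])) : Ct) = (a, k + 1, d, t) := hc
    simp only [Prod.mk.injEq] at hc'
    obtain ⟨rfl, rfl, rfl, rfl⟩ := hc'
    exact ⟨rfl, initSt b, rfl⟩
  | cons w h ih =>
    intro a k d t hc
    have hA : (HP Z C x b m n).A (w :: h) y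
        = mv ((HM Z C x b m).Q ((HM Z C x b m).ctl (c0 C x n) h) w y) ((HP Z C x b m n).A h y) := rfl
    have hc' : hn C x ((HM Z C x b m).ctl (c0 C x n) h) w = (a, k + 1, d, t) := hc
    rw [hA]
    generalize (HM Z C x b m).ctl (c0 C x n) h = c at ih hc'
    obtain ⟨a0, k0, d0, t0⟩ := c
    cases k0 with
    | zero => simp [hn] at hc'
    | succ k0 =>
      obtain ⟨h1, u, h2⟩ := ih a0 k0 d0 t0 rfl
      cases t0 with
      | nil =>
        simp only [hn, Prod.mk.injEq] at hc'
        obtain ⟨rfl, rfl, rfl, rfl⟩ := hc'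
        refine ⟨rfl, (fun t => (HP Z C x b m n).A h y (Fin.append t w)), ?_⟩
        rw [Q_meas]
        rfl
      | cons g t0 =>
        simp only [hn, Prod.mk.injEq, Nat.add_right_cancel_iff] at hc'
        obtain ⟨rfl, rfl, rfl, rfl⟩ := hc'
        refine ⟨by rw [← h1]; simp, ?_⟩
        rw [Q_gate, h2]
        split_ifs
        · refine ⟨u, ?_⟩
          rw [circAct_append]
          rfl
        · refine ⟨fun _ => 0, ?_⟩
          rw [load_zero, circAct_zero]

open Classical in
/-- The weights of the positions. -/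
noncomputable def nu (m : ℕ) (b : ℕ) (c : Ct) (l : Fin N) : ℝ :=
  match c with
  | (_, _ + 1, d, g :: _) =>
      if Free g then 0 else ∑ t : Fin b → Bool, Z.wt g l (circAct (Z.O fun _ => false) d (load m (Ee t)))
  | _ => 0

lemma nu_nonneg (c : Ct) (l : Fin N) : 0 ≤ nu Z m b c l := by
  unfold nu
  split
  · split_ifs
    · exact le_rfl
    · exact Finset.sum_nonneg fun t _ => Z.wt_nonneg _ _ _
  · exact le_rfl

lemma nsq_Ee (t : Fin b → Bool) : nsq (load m (Ee t)) = 1 := by
  rw [nsq_load]
  unfold Ee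
  simp

lemma nu_sum (c : Ct) : ∑ l, nu Z m b c l ≤ 2 ^ b := by
  unfold nu
  split
  · split_ifs
    · simp
    · rw [Finset.sum_comm]
      calc _ ≤ ∑ _t : Fin b → Bool, (1 : ℝ) := by
            refine Finset.sum_le_sum fun t _ => ?_
            refine (Z.sum_wt_le _ _).trans ?_
            rw [nsq_circAct, nsq_Ee]
        _ = 2 ^ b := by simp
  · simp

lemma wt_free {g : Gate} (hg : Free g) (l : Fin N) (ψ : (Fin m → Bool) → ℝ) : Z.wt g l ψ = 0 := by
  rcases g with i | ⟨u, q, k⟩
  · rfl
  · cases u with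
    | false => rfl
    | true => exact absurd rfl (hg q k)

lemma qk_le_nu (n : ℕ) (hC : ∀ a, OneRound (C (pairBits x a))) (h : List (Fin m → Bool))
    (l : Fin N) (y : Fin N → ℤˣ) :
    Pool.Agent.H703R2.AB.qk (HP Z C x b m n) h l y
      ≤ nu Z m b ((HM Z C x b m).ctl (c0 C x n) h) l * nsq ((HP Z C x b m n).A h y) := by
  unfold Pool.Agent.H703R2.AB.qk
  have e : ∀ w, (HP Z C x b m n).a h w (some l)
      = hm Z b ((HM Z C x b m).ctl (c0 C x n) h) w (some l) := fun w => rfl
  simp_rw [e]
  have hinv := inv (b := b) Z C x n y h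
  generalize (HM Z C x b m).ctl (c0 C x n) h = c at hinv
  obtain ⟨a, k, d, t⟩ := c
  cases k with
  | zero =>
    have e0 : ∀ w, hm (m := m) Z b (a, 0, d, t) w (some l) = fun _ _ => 0 := by
      intro w; funext n i; simp [hm]
    simp_rw [e0, mv_fun_zero]
    simp [nsq, nu]
  | succ k =>
    cases t with
    | nil =>
      have e0 : ∀ w, hm (m := m) Z b (a, k + 1, d, []) w (some l) = fun _ _ => 0 := by
        intro w; funext n i; simp [hm]
      simp_rw [e0, mv_fun_zero]
      simp [nsq, nu]
    | cons g t =>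
      rw [Finset.sum_eq_single (fun _ => false)]
      · have e1 : hm (m := m) Z b (a, k + 1, d, g :: t) (fun _ => false) (some l)
            = Z.gm g (some l) := by
          funext n i; simp [hm]
        rw [e1]
        refine (Z.nsq_gm_le g l _).trans ?_
        by_cases hg : Free g
        · rw [wt_free Z hg]
          simp [nu, hg]
        · obtain ⟨h1, u, h2⟩ := hinv a k d (g :: t) rfl
          have hone : OneRound (d ++ g :: t) := by rw [h1]; exact hC a
          rw [h2, Z.wt_first (A' := Z.O fun _ => false) hone hg l, nsq_circAct, nsq_load]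
          simp only [nu, hg, if_false]
          have e3 : circAct (Z.O fun _ => false) d (load m u)
              = fun s => ∑ t, u t * circAct (Z.O fun _ => false) d (load m (Ee t)) s := by
            funext s
            rw [load_sum u]
            exact circAct_lin _ _ _ _ _ _
          rw [e3, mul_comm]
          exact Z.wt_lin g l u _
      · intro w _ hw
        have e0 : hm (m := m) Z b (a, k + 1, d, g :: t) w (some l) = fun _ _ => 0 := by
          funext n i; simp [hm, hw]
        rw [e0, mv_fun_zero]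
        simp [nsq]
      · intro h; exact absurd (Finset.mem_univ _) h

lemma Exc_zero (n : ℕ) (hC : ∀ a, OneRound (C (pairBits x a))) (T : ℕ) :
    Pool.Agent.H703R2.AB.Exc (HP Z C x b m n)
      (fun h l => nu Z m b ((HM Z C x b m).ctl (c0 C x n) h) l) T = 0 := by
  unfold Pool.Agent.H703R2.AB.Exc Pool.Agent.H703R2.AB.Et
  refine Finset.sum_eq_zero fun t _ => ?_
  rw [← Pool.Agent.H703R2.AA.S_zero_fun (W := Fin m → Bool) t]
  refine S_congr' t fun h _ => ?_
  rw [← Ex_const (ι := Fin N) 0]
  refine Ex_congr fun y => Finset.sum_eq_zero fun l _ => ?_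
  unfold Pool.Agent.H703R2.AB.ek
  rw [max_eq_right]
  have := qk_le_nu (b := b) Z C x n hC h l y
  linarith

/-- The probability of acceptance as a function of the bits of the oracle. -/
noncomputable def fa (b m n : ℕ) (y : Fin N → Bool) : ℝ :=
  accH (Z.O y) C x b m n [] (initSt b)

lemma out_fa (n L : ℕ) (hL : ∀ a : List Bool, a.length ≤ n * m → (C (pairBits x a)).length ≤ L)
    (y : Fin N → ℤˣ) :
    (HP Z C x b m n).out (n * (L + 1)) (fun h => og ((HM Z C x b m).ctl (c0 C x n) h)) y
      = fa Z C x b m n (bx y) := by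
  unfold HP fa
  rw [Mach.out_eq]
  cases n with
  | zero =>
    simp only [c0]
    rw [val_idle]
    simp [accH]
  | succ n =>
    simp only [c0]
    rw [val_eq Z C x y L ((n + 1) * m) hL _ _ _ _ _ _ (by simp)
      (by
        have h1 := hL [] (by simp)
        have : (n + 1) * (L + 1) = n * (L + 1) + (L + 1) := by ring
        omega)]
    rfl

lemma EE_bx (f : (Fin N → Bool) → ℝ) : Ex (fun y : Fin N → ℤˣ => f (bx y)) = EE f := by
  rw [Ex_bx]
  rfl

lemma Cov_bx (f : (Fin N → Bool) → ℝ) :
    Cov (fun y : Fin N → ℤˣ => f (bx y)) (fun y => f (bx y)) = var f := by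
  unfold Cov var
  rw [EE_bx, EE_bx (fun z => f z * f z)]
  have : (fun z => f z * f z) = fun z => f z ^ 2 := by funext z; ring
  rw [this]
  ring

lemma Inf_bx (f : (Fin N → Bool) → ℝ) (l : Fin N) :
    Inf (fun y : Fin N → ℤˣ => f (bx y)) l = inf2 f l := by
  unfold Inf inf2
  rw [← EE_bx]
  refine Ex_congr fun y => ?_
  have h1 : ∀ c : ℤˣ, bx (Function.update y l c) = Function.update (bx y) l (decide (c = -1)) := by
    intro c
    funext i
    unfold bx
    by_cases hi : i = l
    · subst hi; simp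
    · simp [Function.update_of_ne hi]
  unfold D
  beta_reduce
  rw [h1, h1]
  have e1 : decide ((1 : ℤˣ) = -1) = false := by decide
  have e2 : decide ((-1 : ℤˣ) = -1) = true := by decide
  rw [e1, e2]
  have hfl : flp l (bx y) = Function.update (bx y) l (!(bx y l)) := rfl
  rw [hfl]
  cases hb : bx y l with
  | false =>
    have e3 : Function.update (bx y) l false = bx y := by
      rw [← hb]; exact Function.update_eq_self _ _
    rw [e3, Bool.not_false]
  | true =>
    have e3 : Function.update (bx y) l true = bx y := by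
      rw [← hb]; exact Function.update_eq_self _ _
    rw [e3, Bool.not_true]
    ring

lemma og_01 (c : Ct) : 0 ≤ og c ∧ og c ≤ 1 := by
  unfold og; split_ifs <;> norm_num

/-- The influence theorem. -/
theorem infl (n L : ℕ) (hL : ∀ a : List Bool, a.length ≤ n * m → (C (pairBits x a)).length ≤ L)
    (hC : ∀ a, OneRound (C (pairBits x a))) (hV : 0 < var (fa Z C x b m n)) :
    1 ≤ n * (L + 1) ∧ ∃ l, (var (fa Z C x b m n) ^ 4 / (2 ^ 21 * ((n * (L + 1) : ℕ) : ℝ) ^ 9 * ((2 : ℝ) ^ b) ^ 2)) ^ 2
      ≤ inf2 (fa Z C x b m n) l := by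
  have hout : (HP Z C x b m n).out (n * (L + 1)) (fun h => og ((HM Z C x b m).ctl (c0 C x n) h))
      = fun y => fa Z C x b m n (bx y) := funext fun y => out_fa Z C x n L hL y
  have hCov : Cov ((HP Z C x b m n).out (n * (L + 1))
      (fun h => og ((HM Z C x b m).ctl (c0 C x n) h)))
      ((HP Z C x b m n).out (n * (L + 1)) (fun h => og ((HM Z C x b m).ctl (c0 C x n) h)))
      = var (fa Z C x b m n) := by
    rw [hout]; exact Cov_bx _
  have hV' : 0 < Cov ((HP Z C x b m n).out (n * (L + 1))
      (fun h => og ((HM Z C x b m).ctl (c0 C x n) h)))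
      ((HP Z C x b m n).out (n * (L + 1)) (fun h => og ((HM Z C x b m).ctl (c0 C x n) h))) := by
    rw [hCov]; exact hV
  have hT := Pool.Agent.H703R2.AB.T_pos _ _ _ hV'
  obtain ⟨l, hl⟩ := Pool.Agent.H703R2.AB.main (HP Z C x b m n) (n * (L + 1)) hT
    (fun h => og ((HM Z C x b m).ctl (c0 C x n) h)) (fun h => (og_01 _).1) (fun h => (og_01 _).2)
    hV' (2 ^ b) (fun h l => nu Z m b ((HM Z C x b m).ctl (c0 C x n) h) l)
    (fun h l => nu_nonneg Z _ l) (fun h => nu_sum Z _)
    (by rw [Exc_zero Z C x n hC]; positivity)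
  refine ⟨hT, l, ?_⟩
  rw [hCov, hout, Inf_bx] at hl
  exact hl

/-- The degree. -/
theorem degle (n L : ℕ) (hL : ∀ a : List Bool, a.length ≤ n * m → (C (pairBits x a)).length ≤ L) :
    DegLe (2 * (n * (L + 1))) (fa Z C x b m n) ∧ (∀ y, 0 ≤ fa Z C x b m n y) ∧
      ∀ y, fa Z C x b m n y ≤ 1 := by
  have hout : ∀ y : Fin N → ℤˣ, (HP Z C x b m n).out (n * (L + 1))
      (fun h => og ((HM Z C x b m).ctl (c0 C x n) h)) y = fa Z C x b m n (bx y) :=
    fun y => out_fa Z C x n L hL y
  have hsurj : ∀ z : Fin N → Bool, ∃ y : Fin N → ℤˣ, bx y = z := by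
    intro z
    refine ⟨fun i => if z i then -1 else 1, ?_⟩
    funext i
    simp only [bx]
    by_cases hx : z i = true
    · simp [hx]
    · simp [hx]
  refine ⟨?_, ?_, ?_⟩
  · intro S hS
    have h1 : Pool.Agent.H722R2.AA.fc (fun y : Fin N → ℤˣ => fa Z C x b m n (bx y)) S = 0 := by
      rw [← funext hout]
      exact Pool.Agent.H703R3.QS.Deg_out (HP Z C x b m n) _ _ S hS
    rw [fc_eq_Ex] at h1
    have h2 : (∑ z : Fin N → Bool, fa Z C x b m n z * ∏ i ∈ S, (if z i then (-1 : ℝ) else 1)) / 2 ^ N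
        = 0 := by
      rw [← h1, ← Ex_bx (fun z => fa Z C x b m n z * ∏ i ∈ S, (if z i then (-1 : ℝ) else 1))]
      refine Ex_congr fun y => ?_
      congr 1
      refine Finset.prod_congr rfl fun i _ => ?_
      unfold Pool.Agent.H722R2.AA.sg bx
      rcases Int.units_eq_one_or (y i) with h1 | h1 <;> simp [h1]
    have h3 : ∑ z : Fin N → Bool, fa Z C x b m n z * ∏ i ∈ S, (if z i then (-1 : ℝ) else 1) = 0 := by
      rcases div_eq_zero_iff.1 h2 with h | h
      · exact h
      · exact absurd h (by positivity)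
    rw [← h3]
    refine Finset.sum_congr rfl fun z _ => ?_
    congr 1
    refine Finset.prod_congr rfl fun i _ => ?_
    cases z i <;> simp
  · intro z
    obtain ⟨y, rfl⟩ := hsurj z
    rw [← hout y]
    exact Pr.out_nonneg _ _ _ (fun h => (og_01 _).1) y
  · intro z
    obtain ⟨y, rfl⟩ := hsurj z
    rw [← hout y]
    exact Pr.out_le _ _ _ (fun h => (og_01 _).2) y

end Pool.Agent.W938.Hyb
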