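import Pool.Agent.W938.Hyb.Sim
import Pool.Agent.H889R3.RQ.Weights
import Pool.Agent.H889R3.RQ.C4

/-!
# Random oracles: from single inputs to languages
-/

set_option autoImplicit false
set_option linter.unusedSectionVars false

namespace Pool.Agent.W938.Hyb

open Filter Pool.Agent.H620R2.Gauge Pool.Agent.NPC Pool.Agent.H889R3.RQ
open Pool.Agent.H628R3.RO (randomOracle)

open Classical in
/-- The general form: `G` is a countable family of devices, `p g x A` the probability that the
device `g` accepts `x` relative to `A`. -/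
theorem languages {Γ : Type} [Countable Γ] (p : Γ → List Bool → Oracle → ℝ)
    (h : ∀ (g : Γ) (k : ℕ), ∃ d : ℕ, ∀ x : List Bool, ∃ T : DTree (List Bool),
      T.depth ≤ (x.length + 2) ^ d ∧ MeasurableSet (WrongA (p g x) T) ∧
      randomOracle.real (WrongA (p g x) T) ≤ 1 / ((x.length : ℝ) + 2) ^ k)
    (Cl : Oracle → Set (List Bool) → Prop)
    (hCl : ∀ A L, Cl A L → ∃ g : Γ, ∀ x, (x ∈ L → 2 / 3 ≤ p g x A) ∧ (x ∉ L → p g x A ≤ 1 / 3))
    (k : ℕ) :
    ∃ T : ℕ → List Bool → DTree (List Bool),
    (∀ i, ∃ d : ℕ, ∀ x, (T i x).depth ≤ (x.length + 2) ^ d) ∧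
    (∀ w : List Bool → ℝ, (∀ x, 0 ≤ w x) → (∀ n, ∑ x : Fin n → Bool, w (List.ofFn x) ≤ 1) →
      ∀ᵐ A ∂randomOracle, ∀ L : Set (List Bool), Cl A L → ∃ i, ∀ᶠ n : ℕ in atTop,
        (∑ x : Fin n → Bool, if ((T i (List.ofFn x)).eval A = true ↔ List.ofFn x ∈ L) then 0
          else w (List.ofFn x)) * n ^ k ≤ 1) ∧
    (∀ S : Set (List Bool), (∀ n, 1 ≤ n → {x : Fin n → Bool | List.ofFn x ∈ S}.ncard ≤ n ^ k) →
      ∀ᵐ A ∂randomOracle, ∀ L : Set (List Bool), Cl A L → ∃ i, ∀ᶠ n : ℕ in atTop,
        ∀ x : Fin n → Bool, List.ofFn x ∈ S →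
          ((T i (List.ofFn x)).eval A = true ↔ List.ofFn x ∈ L)) := by
  rcases isEmpty_or_nonempty Γ with hemp | hne
  · refine ⟨fun _ _ => DTree.leaf false, fun i => ⟨0, fun x => ?_⟩, ?_, ?_⟩
    · simp [DTree.depth]
    · intro w _ _
      filter_upwards with A L hL
      obtain ⟨g, _⟩ := hCl A L hL
      exact (hemp.false g).elim
    · intro S _
      filter_upwards with A L hL
      obtain ⟨g, _⟩ := hCl A L hL
      exact (hemp.false g).elim
  obtain ⟨F, hF⟩ := exists_surjective_nat Γ
  choose dd hdd using fun g : Γ => h g (k + 1 + 2)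
  choose T hT1 hT2 hT3 using fun (i : ℕ) (x : List Bool) => hdd (F i) x
  -- the general statement
  have main : ∀ w : List Bool → ℝ, (∀ x, 0 ≤ w x) →
      (∀ n, ∑ x : Fin n → Bool, w (List.ofFn x) ≤ 1) →
      ∀ᵐ A ∂randomOracle, ∀ L : Set (List Bool), Cl A L → ∃ i, ∀ᶠ n : ℕ in atTop,
        (∑ x : Fin n → Bool, if ((T i (List.ofFn x)).eval A = true ↔ List.ofFn x ∈ L) then 0
          else w (List.ofFn x)) * n ^ (k + 1) ≤ 1 := by
    intro w hw0 hw
    have hae : ∀ᵐ A ∂randomOracle, ∀ i, ∀ᶠ n : ℕ in atTop,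
        (∑ x : Fin n → Bool, if A ∈ WrongA (p (F i) (List.ofFn x)) (T i (List.ofFn x)) then
          w (List.ofFn x) else 0) * n ^ (k + 1) ≤ 1 := by
      rw [MeasureTheory.ae_all_iff]
      intro i
      exact weights (k + 1) w hw0 hw (fun x => WrongA (p (F i) x) (T i x)) (hT2 i) (hT3 i)
    filter_upwards [hae] with A hA L hL
    obtain ⟨g, hgL⟩ := hCl A L hL
    obtain ⟨i, rfl⟩ := hF g
    refine ⟨i, ?_⟩
    filter_upwards [hA i] with n hn
    refine le_trans ?_ hn
    refine mul_le_mul_of_nonneg_right ?_ (by positivity)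
    refine Finset.sum_le_sum fun x _ => ?_
    by_cases hx : ((T i (List.ofFn x)).eval A = true ↔ List.ofFn x ∈ L)
    · rw [if_pos hx]
      split_ifs
      · exact hw0 _
      · exact le_refl _
    · rw [if_neg hx]
      have hW : A ∈ WrongA (p (F i) (List.ofFn x)) (T i (List.ofFn x)) := by
        unfold WrongA
        by_cases hxL : List.ofFn x ∈ L
        · left
          refine ⟨(hgL _).1 hxL, ?_⟩
          by_contra hcon
          exact hx ⟨fun _ => hxL, fun _ => by simpa using hcon⟩
        · right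
          refine ⟨(hgL _).2 hxL, ?_⟩
          by_contra hcon
          exact hx ⟨fun h => absurd h hcon, fun h => absurd h hxL⟩
      rw [if_pos hW]
  refine ⟨T, ?_, ?_, ?_⟩
  · intro i
    exact ⟨dd (F i), fun x => hT1 i x⟩
  · intro w hw0 hw
    filter_upwards [main w hw0 hw] with A hA L hL
    obtain ⟨i, hi⟩ := hA L hL
    refine ⟨i, ?_⟩
    filter_upwards [hi, eventually_ge_atTop 1] with n hn hn1
    refine le_trans ?_ hn
    refine mul_le_mul_of_nonneg_left ?_ ?_
    · exact pow_le_pow_right₀ (by exact_mod_cast hn1) (Nat.le_succ k)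
    · refine Finset.sum_nonneg fun x _ => ?_
      split_ifs
      · exact le_refl _
      · exact hw0 _
  · intro S hS
    have hm := main (fun x => if x ∈ S then 1 / (x.length : ℝ) ^ k else 0)
      (fun x => by split_ifs <;> positivity) (fun n => by
        have h1 : ∑ x : Fin n → Bool, (if List.ofFn x ∈ S then
            1 / ((List.ofFn x).length : ℝ) ^ k else 0) =
            ({x : Fin n → Bool | List.ofFn x ∈ S}.ncard : ℝ) * (1 / (n : ℝ) ^ k) := by
          rw [← Finset.sum_filter]
          simp only [List.length_ofFn]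
          rw [Finset.sum_const, nsmul_eq_mul]
          congr 2
          rw [Set.ncard_eq_toFinset_card']
          congr 1
          ext x
          simp
        rw [h1]
        by_cases hn : (n : ℝ) ^ k = 0
        · rw [hn]; simp
        · have hn0 : 0 < (n : ℝ) ^ k := lt_of_le_of_ne (by positivity) (Ne.symm hn)
          rw [mul_one_div, div_le_one hn0]
          rcases Nat.eq_zero_or_pos n with rfl | hpos
          · have hk0 : (0 : ℝ) ^ k = 1 := by
              rcases Nat.eq_zero_or_pos k with rfl | hk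
              · simp
              · exact absurd (by simp [hk.ne']) hn
            have hc : {x : Fin 0 → Bool | List.ofFn x ∈ S}.ncard ≤ 1 :=
              (Set.ncard_le_ncard (Set.subset_univ _) (Set.toFinite _)).trans
                (by rw [Set.ncard_univ]; simp)
            push_cast
            rw [hk0]
            exact_mod_cast hc
          · exact_mod_cast hS n hpos)
    filter_upwards [hm] with A hA L hL
    obtain ⟨i, hi⟩ := hA L hL
    refine ⟨i, ?_⟩
    filter_upwards [hi, eventually_ge_atTop 2] with n hn hn2 x hx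
    by_contra hcon
    have hn2' : (2 : ℝ) ≤ n := by exact_mod_cast hn2
    have hn0 : (0 : ℝ) < n := by linarith
    have h1 : 1 / (n : ℝ) ^ k ≤ ∑ x : Fin n → Bool,
        (if ((T i (List.ofFn x)).eval A = true ↔ List.ofFn x ∈ L) then (0 : ℝ)
          else if List.ofFn x ∈ S then 1 / ((List.ofFn x).length : ℝ) ^ k else 0) := by
      have h2 := Finset.single_le_sum (f := fun x : Fin n → Bool =>
        (if ((T i (List.ofFn x)).eval A = true ↔ List.ofFn x ∈ L) then (0 : ℝ)
          else if List.ofFn x ∈ S then 1 / ((List.ofFn x).length : ℝ) ^ k else 0))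
        (fun y _ => by
          split_ifs <;> positivity) (Finset.mem_univ x)
      simp only [if_neg hcon, if_pos hx, List.length_ofFn] at h2
      simpa only [List.length_ofFn] using h2
    have h3 : 1 / (n : ℝ) ^ k * (n : ℝ) ^ (k + 1) ≤ 1 :=
      (mul_le_mul_of_nonneg_right h1 (by positivity)).trans hn
    rw [pow_succ, ← mul_assoc, one_div, inv_mul_cancel₀ (by positivity), one_mul] at h3
    linarith

end Pool.Agent.W938.Hyb
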