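import Pool.Agent.H703R2.AB.Osss

/-!
# Controlled machines as processes
-/

set_option autoImplicit false
set_option linter.unusedSectionVars false

namespace Pool.Agent.W938.Hyb

open Finset Pool.Agent.H722R2.AA Pool.Agent.H746R2.AA Pool.Agent.H703R2.AA

/-- A machine whose step matrices depend on a control state. -/
structure Mach (κ ι W Γ : Type*) [Fintype κ] [DecidableEq κ] [Fintype ι] [DecidableEq ι]
    [Fintype W] where
  m : Γ → W → Option κ → ι → ι → ℝ
  orth : ∀ c k l, k ≠ l → ∀ i j, ∑ w, ∑ n, m c w k n i * m c w l n j = 0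
  tot : ∀ c i j, ∑ k, ∑ w, ∑ n, m c w k n i * m c w k n j = if i = j then 1 else 0
  nxt : Γ → W → Γ

namespace Mach

variable {κ ι W Γ : Type*} [Fintype κ] [DecidableEq κ] [Fintype ι] [DecidableEq ι] [Fintype W]
variable (M : Mach κ ι W Γ)

/-- The control state after a history. -/
def ctl (c0 : Γ) : List W → Γ
  | [] => c0
  | w :: h => M.nxt (ctl c0 h) w

/-- The process of the machine. -/
def pr (c0 : Γ) (v : ι → ℝ) (hv : nsq v = 1) : Pr κ ι W where
  a := fun h w k => M.m (M.ctl c0 h) w k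
  v := v
  hv := hv
  orth := fun h k l hkl i j => M.orth _ k l hkl i j
  tot := fun h i j => M.tot _ i j

/-- The step matrix. -/
def Q (c : Γ) (w : W) (x : κ → ℤˣ) (i j : ι) : ℝ := ∑ k, sgo x k * M.m c w k i j

/-- The value: the expected value of `g` at the end of `t` further steps. -/
noncomputable def val (g : Γ → ℝ) (x : κ → ℤˣ) : ℕ → Γ → (ι → ℝ) → ℝ
  | 0, c, s => g c * nsq s
  | t + 1, c, s => ∑ w, val g x t (M.nxt c w) (mv (M.Q c w x) s)

variable (c0 : Γ) (v : ι → ℝ) (hv : nsq v = 1)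

lemma S_val (g : Γ → ℝ) (x : κ → ℤˣ) (j : ℕ) : ∀ t,
    S t (fun h => M.val g x j (M.ctl c0 h) ((M.pr c0 v hv).A h x)) = M.val g x (t + j) c0 v := by
  intro t
  induction t generalizing j with
  | zero =>
    rw [Nat.zero_add]
    rfl
  | succ t ih =>
    simp only [S]
    have e : ∀ h : List W, ∑ w, M.val g x j (M.ctl c0 (w :: h)) ((M.pr c0 v hv).A (w :: h) x)
        = M.val g x (j + 1) (M.ctl c0 h) ((M.pr c0 v hv).A h x) := fun h => rfl
    simp_rw [e]
    rw [ih (j + 1)]
    congr 1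
    omega

/-- The output of the process. -/
lemma out_eq (g : Γ → ℝ) (T : ℕ) (x : κ → ℤˣ) :
    (M.pr c0 v hv).out T (fun h => g (M.ctl c0 h)) x = M.val g x T c0 v := by
  unfold Pr.out
  exact M.S_val c0 v hv g x 0 T

end Mach

end Pool.Agent.W938.Hyb
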