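import Pool.Agent.W938.Hyb.Defs
import Pool.Agent.W938.Hyb.Mach
import Pool.Agent.H746R2.AA.Avg

/-!
# The matrices of the gates
-/

set_option autoImplicit false
set_option linter.unusedSectionVars false

namespace Pool.Agent.W938.Hyb

open Finset Pool.Agent.H722R2.AA Pool.Agent.H746R2.AA Pool.Agent.H703R2.AA
open Pool.Agent.H620R2.Gauge

variable {m N : ℕ}

/-- Equality of basis states. -/
def Ee (s t : Fin m → Bool) : ℝ := if s = t then 1 else 0

/-- Flip a qubit. -/
def Xf (k : ℕ) (s : Fin m → Bool) : Fin m → Bool :=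
  if h : k < m then Function.update s ⟨k, h⟩ (!(s ⟨k, h⟩)) else s

/-- Clear a qubit. -/
def clr (k : ℕ) (s : Fin m → Bool) : Fin m → Bool :=
  if h : k < m then Function.update s ⟨k, h⟩ false else s

lemma Xf_Xf (k : ℕ) (s : Fin m → Bool) : Xf k (Xf k s) = s := by
  unfold Xf
  split_ifs with h
  · simp
  · rfl

lemma clr_Xf (k : ℕ) (s : Fin m → Bool) : clr k (Xf k s) = clr k s := by
  unfold Xf clr
  split_ifs with h
  · simp
  · rfl

lemma flipIf_eq (c : (Fin m → Bool) → Bool) (k : ℕ) (s : Fin m → Bool) :
    flipIf c k s = if c (clr k s) then Xf k s else s := by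
  unfold flipIf Xf clr
  split_ifs with h hc hc
  · rw [hc]; simp
  · rw [Bool.not_eq_true] at hc
    rw [hc]; simp
  · rfl
  · rfl

/-- Flipping as a permutation. -/
def Xe (k : ℕ) : (Fin m → Bool) ≃ (Fin m → Bool) where
  toFun := Xf k
  invFun := Xf k
  left_inv := Xf_Xf k
  right_inv := Xf_Xf k

lemma sum_Xf (k : ℕ) (f : (Fin m → Bool) → ℝ) : ∑ s, f (Xf k s) = ∑ s, f s :=
  (Xe k).sum_comp f

lemma sum_eq_of_pair (k : ℕ) (f g : (Fin m → Bool) → ℝ)
    (h : ∀ s, f s + f (Xf k s) = g s + g (Xf k s)) : ∑ s, f s = ∑ s, g s := by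
  have h1 : ∑ s, (f s + f (Xf k s)) = ∑ s, (g s + g (Xf k s)) :=
    Finset.sum_congr rfl fun s _ => h s
  rw [Finset.sum_add_distrib, Finset.sum_add_distrib, sum_Xf, sum_Xf] at h1
  linarith

lemma sum_Ee (t : Fin m → Bool) (ψ : (Fin m → Bool) → ℝ) : ∑ j, Ee t j * ψ j = ψ t := by
  unfold Ee
  simp

lemma sum_Ee_Ee (i j : Fin m → Bool) : ∑ n, Ee n i * Ee n j = if i = j then 1 else 0 := by
  unfold Ee
  by_cases h : i = j
  · subst h
    simp
  · rw [if_neg h]
    refine Finset.sum_eq_zero fun n _ => ?_
    by_cases h1 : n = i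
    · rw [if_neg (fun h2 : n = j => h (h1.symm.trans h2)), mul_zero]
    · rw [if_neg h1, zero_mul]

/-- Oracles given by `N` bits. -/
structure Adm (N : ℕ) where
  O : (Fin N → Bool) → Oracle
  h : ∀ z, (∃ b, ∀ y, O y z = b) ∨ ∃ i, ∀ y, O y z = y i

namespace Adm

variable (Z : Adm N)

open Classical in
/-- The kind of a string: constant, or equal to a bit. -/
noncomputable def kd (z : List Bool) : Bool ⊕ Fin N :=
  if h : ∃ b, ∀ y, Z.O y z = b then Sum.inl h.choose
  else Sum.inr ((Z.h z).resolve_left h).choose

lemma kd_inl {z : List Bool} {b : Bool} (h : Z.kd z = Sum.inl b) (y : Fin N → Bool) :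
    Z.O y z = b := by
  unfold kd at h
  split_ifs at h with h1
  rw [h1.choose_spec y]
  exact Sum.inl.inj h

lemma kd_inr {z : List Bool} {i : Fin N} (h : Z.kd z = Sum.inr i) (y : Fin N → Bool) :
    Z.O y z = y i := by
  unfold kd at h
  split_ifs at h with h1
  rw [((Z.h z).resolve_left h1).choose_spec y]
  rw [Sum.inr.inj h]

/-- The kind of the question of an oracle gate. -/
noncomputable def kq (q : List ℕ) (k : ℕ) (s : Fin m → Bool) : Bool ⊕ Fin N :=
  Z.kd (q.map (rd (clr k s)))

lemma kq_Xf (q : List ℕ) (k : ℕ) (s : Fin m → Bool) : Z.kq q k (Xf k s) = Z.kq q k s := by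
  unfold kq
  rw [clr_Xf]

/-- The matrices of a gate. -/
noncomputable def gm : Gate → Option (Fin N) → (Fin m → Bool) → (Fin m → Bool) → ℝ
  | Sum.inl i, none => fun s t =>
      if h : i < m then
        (Ee (Function.update s ⟨i, h⟩ false) t
          + (if s ⟨i, h⟩ then -1 else 1) * Ee (Function.update s ⟨i, h⟩ true) t) / Real.sqrt 2
      else Ee s t
  | Sum.inl _, some _ => fun _ _ => 0
  | Sum.inr (false, q, k), none => fun s t => Ee (if q.all (rd (clr k s)) then Xf k s else s) t
  | Sum.inr (false, _, _), some _ => fun _ _ => 0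
  | Sum.inr (true, q, k), none => fun s t =>
      Sum.elim (fun b => Ee (if b then Xf k s else s) t) (fun _ => (Ee s t + Ee (Xf k s) t) / 2)
        (Z.kq q k s)
  | Sum.inr (true, q, k), some l => fun s t =>
      if Z.kq q k s = Sum.inr l then (Ee s t - Ee (Xf k s) t) / 2 else 0

lemma bx_sg (x : Fin N → ℤˣ) (i : Fin N) : sg x i = if bx x i then -1 else 1 := by
  unfold sg bx
  rcases Int.units_eq_one_or (x i) with h | h <;> simp [h]

/-- The action of the gate. -/
lemma gm_act (g : Gate) (x : Fin N → ℤˣ) (ψ : (Fin m → Bool) → ℝ) :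
    mv (fun i j => ∑ k, sgo x k * Z.gm g k i j) ψ = gateAct (Z.O (bx x)) g ψ := by
  funext s
  simp only [mv]
  simp_rw [Fintype.sum_option, sgo, one_mul]
  rcases g with i | ⟨u, q, k⟩
  · simp only [gm, mul_zero, Finset.sum_const_zero, add_zero, gateAct]
    split_ifs with h
    · simp_rw [div_mul_eq_mul_div, add_mul, mul_assoc]
      rw [← Finset.sum_div, Finset.sum_add_distrib, ← Finset.mul_sum, sum_Ee, sum_Ee]
    · simp_rw [div_mul_eq_mul_div, add_mul, mul_assoc]
      rw [← Finset.sum_div, Finset.sum_add_distrib, ← Finset.mul_sum, sum_Ee, sum_Ee]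
    · exact sum_Ee _ _
  · cases u with
    | false =>
      simp only [gm, mul_zero, Finset.sum_const_zero, add_zero, gateAct]
      rw [sum_Ee, flipIf_eq]
    | true =>
      simp only [gm, gateAct]
      rw [flipIf_eq]
      cases hk : Z.kq q k s with
      | inl b =>
        have hb : Z.O (bx x) (q.map (rd (clr k s))) = b := Z.kd_inl hk _
        simp only [Sum.elim_inl, reduceCtorEq, if_false, mul_zero, Finset.sum_const_zero, add_zero]
        rw [sum_Ee, hb]
      | inr l =>
        have hb : Z.O (bx x) (q.map (rd (clr k s))) = bx x l := Z.kd_inr hk _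
        simp only [Sum.elim_inr, Sum.inr.injEq, mul_ite, mul_zero, Finset.sum_ite_eq,
          Finset.mem_univ, if_true]
        rw [hb, bx_sg]
        have e : ∀ j, ((Ee s j + Ee (Xf k s) j) / 2 + (if bx x l = true then (-1 : ℝ) else 1)
            * ((Ee s j - Ee (Xf k s) j) / 2)) * ψ j
            = Ee (if bx x l = true then Xf k s else s) j * ψ j := by
          intro j
          split_ifs <;> ring
        rw [Finset.sum_congr rfl fun j _ => e j, sum_Ee]

lemma gm_orth (g : Gate) (k l : Option (Fin N)) (hkl : k ≠ l) (i j : Fin m → Bool) :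
    ∑ n, Z.gm g k n i * Z.gm g l n j = 0 := by
  rcases g with i0 | ⟨u, q, k0⟩
  · refine Finset.sum_eq_zero fun n _ => ?_
    cases k with
    | none => cases l with
      | none => exact absurd rfl hkl
      | some l => simp [gm]
    | some k => simp [gm]
  · cases u with
    | false =>
      refine Finset.sum_eq_zero fun n _ => ?_
      cases k with
      | none => cases l with
        | none => exact absurd rfl hkl
        | some l => simp [gm]
      | some k => simp [gm]
    | true =>
      have key : ∀ (l : Fin N) (i j : Fin m → Bool), ∑ n, Z.gm (Sum.inr (true, q, k0)) none n i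
          * Z.gm (Sum.inr (true, q, k0)) (some l) n j = 0 := by
        intro l i j
        rw [sum_eq_of_pair k0 _ (fun _ => 0)]
        · simp
        · intro s
          simp only [gm, kq_Xf, Xf_Xf]
          by_cases h : Z.kq q k0 s = Sum.inr l
          · rw [h]
            simp only [Sum.elim_inr, if_true]
            ring
          · simp only [h, if_false, mul_zero, add_zero]
      cases k with
      | none => cases l with
        | none => exact absurd rfl hkl
        | some l => exact key l i j
      | some k => cases l with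
        | none =>
          rw [← key k j i]
          exact Finset.sum_congr rfl fun n _ => mul_comm _ _
        | some l =>
          refine Finset.sum_eq_zero fun n _ => ?_
          have hkl' : k ≠ l := fun h => hkl (by rw [h])
          simp only [gm]
          by_cases h1 : Z.kq q k0 n = Sum.inr k
          · rw [if_neg (fun h2 : Z.kq q k0 n = Sum.inr l => hkl' (Sum.inr.inj (h1.symm.trans h2))),
              mul_zero]
          · rw [if_neg h1, zero_mul]

lemma gm_tot (g : Gate) (i j : Fin m → Bool) :
    ∑ k, ∑ n, Z.gm g k n i * Z.gm g k n j = if i = j then 1 else 0 := by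
  rw [← sum_Ee_Ee i j, Finset.sum_comm]
  rcases g with i0 | ⟨u, q, k0⟩
  · refine sum_eq_of_pair i0 _ _ fun s => ?_
    simp only [Fintype.sum_option, gm, mul_zero, Finset.sum_const_zero, add_zero]
    by_cases h : i0 < m
    · simp only [h, dite_true]
      have hX : Xf i0 s = Function.update s ⟨i0, h⟩ (!(s ⟨i0, h⟩)) := by
        unfold Xf
        rw [dif_pos h]
      have h2 : (Real.sqrt 2) ^ 2 = 2 := Real.sq_sqrt (by norm_num)
      have h0 : Real.sqrt 2 ≠ 0 := by positivity
      rw [hX]
      simp only [Function.update_self, Function.update_idem]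
      cases hs : s ⟨i0, h⟩ with
      | false =>
        have e1 : Function.update s ⟨i0, h⟩ false = s := by
          rw [← hs]; exact Function.update_eq_self _ _
        simp only [Bool.not_false, e1, Bool.false_eq_true, if_false, if_true]
        field_simp
        rw [h2]
        ring
      | true =>
        have e1 : Function.update s ⟨i0, h⟩ true = s := by
          rw [← hs]; exact Function.update_eq_self _ _
        simp only [Bool.not_true, e1, Bool.false_eq_true, if_false, if_true]
        field_simp
        rw [h2]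
        ring
    · have hX : Xf i0 s = s := by
        unfold Xf
        rw [dif_neg h]
      simp only [h, dite_false, hX]
  · cases u with
    | false =>
      refine sum_eq_of_pair k0 _ _ fun s => ?_
      simp only [Fintype.sum_option, gm, mul_zero, Finset.sum_const_zero, add_zero, clr_Xf, Xf_Xf]
      split_ifs <;> ring
    | true =>
      refine sum_eq_of_pair k0 _ _ fun s => ?_
      simp only [Fintype.sum_option, gm, kq_Xf, Xf_Xf]
      cases hk : Z.kq q k0 s with
      | inl b =>
        simp only [Sum.elim_inl, reduceCtorEq, if_false, mul_zero, Finset.sum_const_zero, add_zero]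
        cases b <;> simp only [Bool.false_eq_true, if_false, if_true] <;> ring
      | inr l =>
        simp only [Sum.elim_inr, Sum.inr.injEq, mul_ite, ite_mul, mul_zero, zero_mul]
        have e : ∀ c : ℝ, ∑ x : Fin N, (if l = x then (if l = x then c else 0) else 0) = c := by
          intro c
          simp
        simp only [e]
        ring

/-- The weight of the position `l` in the question of a gate. -/
noncomputable def wt (g : Gate) (l : Fin N) (ψ : (Fin m → Bool) → ℝ) : ℝ :=
  match g with
  | Sum.inr (true, q, k) => ∑ s, if Z.kq q k s = Sum.inr l then ψ s ^ 2 else 0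
  | _ => 0

lemma wt_nonneg (g : Gate) (l : Fin N) (ψ : (Fin m → Bool) → ℝ) : 0 ≤ Z.wt g l ψ := by
  unfold wt
  split
  · exact Finset.sum_nonneg fun s _ => by split_ifs <;> positivity
  · exact le_rfl

lemma nsq_gm_le (g : Gate) (l : Fin N) (ψ : (Fin m → Bool) → ℝ) :
    nsq (mv (Z.gm g (some l)) ψ) ≤ Z.wt g l ψ := by
  rcases g with i0 | ⟨u, q, k0⟩
  · simp [gm, mv, nsq, wt]
  · cases u with
    | false => simp [gm, mv, nsq, wt]
    | true =>
      simp only [wt]
      have e : ∀ s, mv (Z.gm (Sum.inr (true, q, k0)) (some l)) ψ s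
          = if Z.kq q k0 s = Sum.inr l then (ψ s - ψ (Xf k0 s)) / 2 else 0 := by
        intro s
        simp only [mv, gm]
        split_ifs with h
        · simp_rw [div_mul_eq_mul_div, sub_mul]
          rw [← Finset.sum_div, Finset.sum_sub_distrib, sum_Ee, sum_Ee]
        · simp
      unfold nsq
      simp_rw [e]
      have h2 : ∑ s, (if Z.kq q k0 s = Sum.inr l then (ψ s - ψ (Xf k0 s)) / 2 else 0) ^ 2
          ≤ ∑ s, ((if Z.kq q k0 s = Sum.inr l then ψ s ^ 2 else 0)
            + (if Z.kq q k0 (Xf k0 s) = Sum.inr l then ψ (Xf k0 s) ^ 2 else 0)) / 2 := by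
        refine Finset.sum_le_sum fun s _ => ?_
        rw [kq_Xf]
        split_ifs with h
        · nlinarith [sq_nonneg (ψ s + ψ (Xf k0 s))]
        · norm_num
      refine h2.trans (le_of_eq ?_)
      rw [← Finset.sum_div, Finset.sum_add_distrib,
        sum_Xf k0 (fun s => if Z.kq q k0 s = Sum.inr l then ψ s ^ 2 else 0)]
      ring

end Adm

end Pool.Agent.W938.Hyb
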