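import Pool.Agent.W938.Hyb.Circ

/-!
# The machine of a hybrid computation
-/

set_option autoImplicit false
set_option linter.unusedSectionVars false

namespace Pool.Agent.W938.Hyb

open Finset Pool.Agent.H722R2.AA Pool.Agent.H746R2.AA Pool.Agent.H703R2.AA
open Pool.Agent.H620R2.Gauge
open Pool.Agent.NPC (pairBits PolyTime bits)

variable {b m N : ℕ}

/-- The measurement with outcome `w`. -/
def Kr (w : Fin m → Bool) (n i : Fin (b + m) → Bool) : ℝ :=
  if n = Fin.append (fun t => i (Fin.castAdd m t)) (fun _ => false)
    ∧ w = (fun j => i (Fin.natAdd b j)) then 1 else 0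

lemma split_eq (i : Fin (b + m) → Bool) :
    i = Fin.append (fun t => i (Fin.castAdd m t)) (fun j => i (Fin.natAdd b j)) :=
  Fin.append_castAdd_natAdd.symm

lemma mv_Kr (w : Fin m → Bool) (ψ : (Fin (b + m) → Bool) → ℝ) :
    mv (Kr w) ψ = load m (fun t => ψ (Fin.append t w)) := by
  funext n
  unfold mv load Kr
  by_cases hn : ∀ j : Fin m, n (Fin.natAdd b j) = false
  · rw [if_pos hn, Finset.sum_eq_single (Fin.append (fun t => n (Fin.castAdd m t)) w)]
    · rw [if_pos, one_mul]
      constructor
      · conv_lhs => rw [split_eq n]
        congr 1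
        · funext t; simp
        · funext j; exact hn j
      · funext j; simp
    · intro i _ hi
      rw [if_neg, zero_mul]
      rintro ⟨h1, h2⟩
      apply hi
      rw [split_eq i]
      congr 1
      · funext t
        rw [h1]; simp
      · exact h2.symm
    · intro h; exact absurd (Finset.mem_univ _) h
  · rw [if_neg hn]
    refine Finset.sum_eq_zero fun i _ => ?_
    rw [if_neg, zero_mul]
    rintro ⟨h1, _⟩
    apply hn
    intro j
    rw [h1]; simp

lemma sum_Kr (i j : Fin (b + m) → Bool) :
    ∑ w : Fin m → Bool, ∑ n, Kr w n i * Kr w n j = if i = j then 1 else 0 := by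
  rw [Finset.sum_eq_single (fun r => i (Fin.natAdd b r))]
  · rw [Finset.sum_eq_single (Fin.append (fun t => i (Fin.castAdd m t)) (fun _ => false))]
    · unfold Kr
      rw [if_pos ⟨rfl, rfl⟩, one_mul]
      by_cases h : i = j
      · subst h; simp
      · rw [if_neg h, if_neg]
        rintro ⟨h1, h2⟩
        apply h
        rw [split_eq i, split_eq j]
        congr 1
        funext t
        have := congrFun h1 (Fin.castAdd m t)
        simpa using this
    · intro n _ hn
      unfold Kr
      rw [if_neg (fun h => hn h.1), zero_mul]
    · intro h; exact absurd (Finset.mem_univ _) h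
  · intro w _ hw
    refine Finset.sum_eq_zero fun n _ => ?_
    unfold Kr
    rw [if_neg (fun h => hw h.2), zero_mul]
  · intro h; exact absurd (Finset.mem_univ _) h

lemma nsq_load (u : (Fin b → Bool) → ℝ) : nsq (load m u) = ∑ t, u t ^ 2 := by
  unfold nsq
  rw [← (Fin.appendEquiv b m).sum_comp, Fintype.sum_prod_type]
  refine Finset.sum_congr rfl fun t _ => ?_
  rw [Finset.sum_eq_single (fun _ => false)]
  · congr 1
    unfold load
    rw [if_pos]
    · congr 1
      funext i
      simp [Fin.appendEquiv]
    · intro j
      simp [Fin.appendEquiv]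
  · intro s _ hs
    unfold load
    rw [if_neg]
    · norm_num
    · intro h
      apply hs
      funext j
      have := h j
      simpa [Fin.appendEquiv] using this
  · intro h; exact absurd (Finset.mem_univ _) h

lemma load_zero : load m (fun _ : Fin b → Bool => (0 : ℝ)) = fun _ => 0 := by
  funext s
  unfold load
  split_ifs <;> rfl

lemma load_sum (u : (Fin b → Bool) → ℝ) :
    load m u = fun s => ∑ t, u t * load m (Ee t) s := by
  funext s
  unfold load
  by_cases h : ∀ j : Fin m, s (Fin.natAdd b j) = false
  · simp only [h, implies_true, if_true]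
    unfold Ee
    simp
  · simp only [h, if_false, mul_zero, Finset.sum_const_zero]

/-- Control states: the record, the number of circuits which are not yet finished, the gates of the
present circuit which have been applied, and those which have not. -/
abbrev Ct : Type := List Bool × ℕ × List Gate × List Gate

/-- The step matrices. -/
noncomputable def hm (Z : Adm N) (b : ℕ) (c : Ct) (w : Fin m → Bool) (k : Option (Fin N))
    (n i : Fin (b + m) → Bool) : ℝ :=
  match c with
  | (_, 0, _, _) => if w = (fun _ => false) ∧ k = none then Ee n i else 0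
  | (_, _ + 1, _, g :: _) => if w = (fun _ => false) then Z.gm g k n i else 0
  | (_, _ + 1, _, []) => if k = none then Kr w n i else 0

/-- The next control state. -/
def hn (C : List Bool → List Gate) (x : List Bool) (c : Ct) (w : Fin m → Bool) : Ct :=
  match c with
  | (a, 0, d, t) => (a, 0, d, t)
  | (a, k + 1, d, g :: t) => (a, k + 1, d ++ [g], t)
  | (a, k + 1, _, []) => (List.ofFn w ++ a, k, [], C (pairBits x (List.ofFn w ++ a)))

/-- The machine. -/
noncomputable def HM (Z : Adm N) (C : List Bool → List Gate) (x : List Bool) (b m : ℕ) :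
    Mach (Fin N) (Fin (b + m) → Bool) (Fin m → Bool) Ct where
  m := hm Z b
  nxt := hn C x
  orth := by
    rintro ⟨a, k', d, t⟩ k l hkl i j
    cases k' with
    | zero =>
      refine Finset.sum_eq_zero fun w _ => Finset.sum_eq_zero fun n _ => ?_
      simp only [hm]
      by_cases h : w = (fun _ => false) ∧ k = none
      · rw [if_neg (c := w = (fun _ => false) ∧ l = none)
          (fun h2 => hkl (h.2.trans h2.2.symm)), mul_zero]
      · rw [if_neg h, zero_mul]
    | succ k' =>
      cases t with
      | nil =>
        refine Finset.sum_eq_zero fun w _ => Finset.sum_eq_zero fun n _ => ?_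
        simp only [hm]
        by_cases h : k = none
        · rw [if_neg (c := l = none) (fun h2 => hkl (h.trans h2.symm)), mul_zero]
        · rw [if_neg h, zero_mul]
      | cons g t =>
        rw [Finset.sum_eq_single (fun _ => false)]
        · simp only [hm, if_true]
          exact Z.gm_orth g k l hkl i j
        · intro w _ hw
          refine Finset.sum_eq_zero fun n _ => ?_
          simp only [hm]
          rw [if_neg hw, zero_mul]
        · intro h; exact absurd (Finset.mem_univ _) h
  tot := by
    rintro ⟨a, k', d, t⟩ i j
    cases k' with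
    | zero =>
      rw [Fintype.sum_option, Finset.sum_eq_single (fun _ => false)]
      · simp only [hm, and_self, if_true, reduceCtorEq, and_false, if_false, mul_zero,
          Finset.sum_const_zero, add_zero]
        exact sum_Ee_Ee i j
      · intro w _ hw
        refine Finset.sum_eq_zero fun n _ => ?_
        simp only [hm]
        rw [if_neg (fun h => hw h.1), zero_mul]
      · intro h; exact absurd (Finset.mem_univ _) h
    | succ k' =>
      cases t with
      | nil =>
        rw [Fintype.sum_option]
        simp only [hm, if_true, reduceCtorEq, if_false, mul_zero, Finset.sum_const_zero, add_zero]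
        exact sum_Kr i j
      | cons g t =>
        rw [← Z.gm_tot g i j]
        refine Finset.sum_congr rfl fun k _ => ?_
        rw [Finset.sum_eq_single (fun _ => false)]
        · simp only [hm, if_true]
        · intro w _ hw
          refine Finset.sum_eq_zero fun n _ => ?_
          simp only [hm]
          rw [if_neg hw, zero_mul]
        · intro h; exact absurd (Finset.mem_univ _) h

variable (Z : Adm N) (C : List Bool → List Gate) (x : List Bool)

lemma mv_zero_fun {ι : Type*} [Fintype ι] (M : ι → ι → ℝ) : mv M (fun _ => 0) = fun _ => 0 := by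
  funext i; simp [mv]

lemma mv_fun_zero {ι : Type*} [Fintype ι] (ψ : ι → ℝ) : mv (fun _ _ => 0) ψ = fun _ => 0 := by
  funext i; simp [mv]

lemma Q_idle (y : Fin N → ℤˣ) (a : List Bool) (d t : List Gate) (w : Fin m → Bool)
    (ψ : (Fin (b + m) → Bool) → ℝ) :
    mv ((HM Z C x b m).Q (a, 0, d, t) w y) ψ = if w = (fun _ => false) then ψ else fun _ => 0 := by
  have e : (HM Z C x b m).Q (a, 0, d, t) w y = if w = (fun _ => false) then Ee else fun _ _ => 0 := by
    funext n i
    unfold Mach.Q
    rw [Fintype.sum_option]
    simp only [HM, hm, reduceCtorEq, and_false, if_false, mul_zero, Finset.sum_const_zero, add_zero,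
      sgo, one_mul, and_true]
    split_ifs <;> rfl
  rw [e]
  split_ifs
  · funext n
    exact sum_Ee n ψ
  · exact mv_fun_zero ψ

lemma Q_gate (y : Fin N → ℤˣ) (a : List Bool) (k : ℕ) (d t : List Gate) (g : Gate)
    (w : Fin m → Bool) (ψ : (Fin (b + m) → Bool) → ℝ) :
    mv ((HM Z C x b m).Q (a, k + 1, d, g :: t) w y) ψ
      = if w = (fun _ => false) then gateAct (Z.O (bx y)) g ψ else fun _ => 0 := by
  have e : (HM Z C x b m).Q (a, k + 1, d, g :: t) w y
      = if w = (fun _ => false) then (fun i j => ∑ l, sgo y l * Z.gm g l i j) else fun _ _ => 0 := by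
    funext n i
    unfold Mach.Q
    simp only [HM, hm]
    split_ifs with h
    · rfl
    · simp
  rw [e]
  split_ifs
  · exact Z.gm_act g y ψ
  · exact mv_fun_zero ψ

lemma Q_meas (y : Fin N → ℤˣ) (a : List Bool) (k : ℕ) (d : List Gate)
    (w : Fin m → Bool) (ψ : (Fin (b + m) → Bool) → ℝ) :
    mv ((HM Z C x b m).Q (a, k + 1, d, []) w y) ψ = load m (fun t => ψ (Fin.append t w)) := by
  have e : (HM Z C x b m).Q (a, k + 1, d, []) w y = Kr w := by
    funext n i
    unfold Mach.Q
    rw [Fintype.sum_option]
    simp only [HM, hm, reduceCtorEq, if_false, mul_zero, Finset.sum_const_zero, add_zero,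
      sgo, one_mul, if_true]
  rw [e, mv_Kr]

/-- The output: whether the record begins with `1`. -/
noncomputable def og (c : Ct) : ℝ := if c.1.head? = some true then 1 else 0

lemma val_zero (g : Ct → ℝ) (y : Fin N → ℤˣ) : ∀ (t : ℕ) (c : Ct),
    (HM Z C x b m).val g y t c (fun _ => 0) = 0
  | 0, c => by simp [Mach.val, nsq]
  | t + 1, c => by
    simp only [Mach.val]
    refine Finset.sum_eq_zero fun w _ => ?_
    rw [mv_zero_fun]
    exact val_zero g y t _

lemma val_idle (y : Fin N → ℤˣ) (a : List Bool) (d t' : List Gate) : ∀ (t : ℕ)
    (ψ : (Fin (b + m) → Bool) → ℝ),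
    (HM Z C x b m).val og y t (a, 0, d, t') ψ
      = if a.head? = some true then nsq ψ else 0
  | 0, ψ => by
    simp only [Mach.val, og]
    split_ifs <;> simp
  | t + 1, ψ => by
    simp only [Mach.val]
    rw [Finset.sum_eq_single (fun _ => false)]
    · rw [Q_idle, if_pos rfl]
      exact val_idle y a d t' t ψ
    · intro w _ hw
      rw [Q_idle, if_neg hw, val_zero]
    · intro h; exact absurd (Finset.mem_univ _) h

/-- The value of the machine is the probability of acceptance. -/
lemma val_eq (y : Fin N → ℤˣ) (L Λ : ℕ) (hL : ∀ a : List Bool, a.length ≤ Λ →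
    (C (pairBits x a)).length ≤ L) : ∀ (t : ℕ) (a : List Bool) (k : ℕ) (d t' : List Gate)
    (ψ : (Fin (b + m) → Bool) → ℝ), a.length + (k + 1) * m ≤ Λ → t'.length + 1 + k * (L + 1) ≤ t →
    (HM Z C x b m).val og y t (a, k + 1, d, t') ψ
      = ∑ w : Fin m → Bool, accH (Z.O (bx y)) C x b m k (List.ofFn w ++ a)
          (fun u => circAct (Z.O (bx y)) t' ψ (Fin.append u w)) := by
  intro t
  induction t with
  | zero => intro a k d t' ψ _ h; omega
  | succ t ih =>
    intro a k d t' ψ hΛ ht
    cases t' with
    | nil =>
      simp only [Mach.val, circAct]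
      refine Finset.sum_congr rfl fun w _ => ?_
      rw [Q_meas]
      change (HM Z C x b m).val og y t (List.ofFn w ++ a, k, [], C (pairBits x (List.ofFn w ++ a))) _ = _
      cases k with
      | zero =>
        rw [val_idle, nsq_load]
        rfl
      | succ k =>
        have hlen : (List.ofFn w ++ a).length + (k + 1) * m ≤ Λ := by
          rw [List.length_append, List.length_ofFn]
          calc m + a.length + (k + 1) * m = a.length + (k + 1 + 1) * m := by ring
            _ ≤ Λ := hΛ
        have hlen2 : (List.ofFn w ++ a).length ≤ Λ := (Nat.le_add_right _ _).trans hlen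
        have hC := hL _ hlen2
        rw [ih (List.ofFn w ++ a) k [] _ _ hlen (by
          simp only [List.length_nil] at ht
          have : (k + 1) * (L + 1) = k * (L + 1) + (L + 1) := by ring
          omega)]
        rfl
    | cons g t' =>
      simp only [Mach.val]
      rw [Finset.sum_eq_single (fun _ => false)]
      · rw [Q_gate, if_pos rfl]
        change (HM Z C x b m).val og y t (a, k + 1, d ++ [g], t') _ = _
        rw [ih a k (d ++ [g]) t' _ hΛ (by simp only [List.length_cons] at ht; omega)]
        rfl
      · intro w _ hw
        rw [Q_gate, if_neg hw, val_zero]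
      · intro h; exact absurd (Finset.mem_univ _) h

end Pool.Agent.W938.Hyb
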