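import Pool.Agent.W938.Hyb.Dom
import Pool.Agent.H889R3.RQ.TaskC2
import Pool.Agent.H192R3.RQ.A1
import Pool.Agent.H023R3.RQ.A2
import Pool.Agent.H169R3.RQ.A3
import Pool.Agent.H54.RQ.C1

/-!
# Simulation of hybrid computations by decision trees
-/

set_option autoImplicit false
set_option linter.unusedSectionVars false

namespace Pool.Agent.W938.Hyb

open Finset Pool.Agent.H620R2.Gauge Pool.Agent.NPC Pool.Agent.H889R3.RQ
open Pool.Agent.H572R2 (EE EE_congr)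
open Pool.Agent.H572R4.QA (var rs DegLe)
open Pool.Agent.H628R3.RO (randomOracle)

/-- Simulation for families of functions with influential variables: if the variance is large then
some influence is at least `V ^ 8 / B`. -/
theorem tree_family {N : ℕ} (F : Set ((Fin N → Bool) → ℝ)) (B : ℝ) (d : ℕ) (hB : 1 ≤ B)
    (hF : ∀ f ∈ F, ∀ (j : Fin N) (c : Bool), rs j c f ∈ F)
    (h01 : ∀ f ∈ F, (∀ y, 0 ≤ f y) ∧ ∀ y, f y ≤ 1)
    (hdeg : ∀ f ∈ F, DegLe d f)
    (hinf : ∀ f ∈ F, 0 < var f → ∃ l, var f ^ 8 / B ≤ inf2 f l)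
    (f : (Fin N → Bool) → ℝ) (hf : f ∈ F) (η : ℝ) (hη : 0 < η) (hη1 : η ≤ 1) :
    ∃ T : DTree (Fin N), (T.depth : ℝ) ≤ 2 ^ 52 * ((d : ℝ) + 1) * B / η ^ 9 ∧ EE (bad f T) ≤ η := by
  set v : ℝ := η / 72 with hv
  set τ : ℝ := v ^ 8 / B with hτ
  have hv0 : 0 < v := by positivity
  have hB0 : 0 < B := by linarith
  have hτ0 : 0 < τ := by positivity
  have hd0 : (0 : ℝ) ≤ d := Nat.cast_nonneg d
  have h3 := Pool.Agent.H169R3.RQ.a3 a1 N F τ v hτ0 hv0.le hF (by
    intro g hg hj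
    by_contra hc
    push Not at hc
    obtain ⟨l, hl⟩ := hinf g hg (hv0.trans hc)
    have h4 := hj l
    have h5 : τ ≤ var g ^ 8 / B := by
      rw [hτ]
      gcongr
    linarith) (⌈2 * ((d : ℝ) + 1) / (τ * η)⌉₊ ) f hf
  obtain ⟨h3a, h3b⟩ := h3
  have htot := Pool.Agent.H023R3.RQ.a2 N d f
      (fun y => by rw [abs_le]; constructor <;> linarith [(h01 f hf).1 y, (h01 f hf).2 y])
      (hdeg f hf)
  refine ⟨sim τ ⌈2 * ((d : ℝ) + 1) / (τ * η)⌉₊ f, ?_, ?_⟩
  · have h5 : ((sim τ ⌈2 * ((d : ℝ) + 1) / (τ * η)⌉₊ f).depth : ℝ)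
        ≤ (⌈2 * ((d : ℝ) + 1) / (τ * η)⌉₊ : ℝ) := by
      exact_mod_cast h3a
    have h6 : (⌈2 * ((d : ℝ) + 1) / (τ * η)⌉₊ : ℝ) ≤ 2 * ((d : ℝ) + 1) / (τ * η) + 1 :=
      (Nat.ceil_lt_add_one (by positivity)).le
    refine (h5.trans h6).trans ?_
    have h7 : 2 * ((d : ℝ) + 1) / (τ * η) = 2 * 72 ^ 8 * (((d : ℝ) + 1) * (B / η ^ 9)) := by
      rw [hτ, hv]
      field_simp
    rw [h7]
    have h8 : (1 : ℝ) ≤ B / η ^ 9 := by
      rw [le_div_iff₀ (by positivity)]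
      have : η ^ 9 ≤ 1 := pow_le_one₀ hη.le hη1
      linarith
    have h10 : 2 ^ 52 * ((d : ℝ) + 1) * B / η ^ 9 = 2 ^ 52 * (((d : ℝ) + 1) * (B / η ^ 9)) := by ring
    rw [h10]
    have h11 : (2 : ℝ) * 72 ^ 8 ≤ 2 ^ 51 := by norm_num
    have h12 : (1 : ℝ) ≤ ((d : ℝ) + 1) * (B / η ^ 9) := by nlinarith
    nlinarith
  · by_contra hc
    push Not at hc
    have h5 : 2 * ((d : ℝ) + 1) / (τ * η) ≤ (⌈2 * ((d : ℝ) + 1) / (τ * η)⌉₊ : ℝ) := Nat.le_ceil _
    have h8 : 2 * ((d : ℝ) + 1) ≤ (⌈2 * ((d : ℝ) + 1) / (τ * η)⌉₊ : ℝ) * τ * η := by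
      rw [div_le_iff₀ (by positivity)] at h5
      linarith
    have h9 : η / 2 < EE (bad f (sim τ ⌈2 * ((d : ℝ) + 1) / (τ * η)⌉₊ f)) - 36 * v := by
      rw [hv]; linarith
    have h10 : 0 < (⌈2 * ((d : ℝ) + 1) / (τ * η)⌉₊ : ℝ) * τ := by
      by_contra hn
      push Not at hn
      nlinarith
    have h11 := mul_lt_mul_of_pos_left h9 h10
    linarith

/-- The event that the tree is wrong about an acceptance probability. -/
def WrongA (p : Oracle → ℝ) (T : DTree (List Bool)) : Set Oracle :=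
  {A | (2 / 3 ≤ p A ∧ T.eval A = false) ∨ (p A ≤ 1 / 3 ∧ T.eval A = true)}

/-- From functions of the bits to random oracles. -/
theorem tree_oracle (p : Oracle → ℝ) (q : ℕ) (D η : ℝ)
    (hloc : ∀ A A' : Oracle, (∀ z : List Bool, z.length ≤ q → A z = A' z) → p A = p A')
    (h : ∀ (N : ℕ) (Z : Adm N), ∃ T : DTree (Fin N), (T.depth : ℝ) ≤ D ∧
      EE (bad (fun y => p (Z.O y)) T) ≤ η) :
    ∃ T : DTree (List Bool), (T.depth : ℝ) ≤ D ∧ MeasurableSet (WrongA p T) ∧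
      randomOracle.real (WrongA p T) ≤ η := by
  set S : Finset (List Bool) := (List.finite_length_le Bool q).toFinset with hS
  have hmem : ∀ z : List Bool, z.length ≤ q → z ∈ S := by
    intro z hz
    rw [hS, Set.Finite.mem_toFinset]
    exact hz
  set N := S.card with hN
  set e : Fin N → List Bool := fun i => (S.equivFin.symm i).1 with he
  have hinj : Function.Injective e := by
    intro i j hij
    exact S.equivFin.symm.injective (Subtype.ext hij)
  set O : (Fin N → Bool) → (List Bool → Bool) := fun y z =>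
    if h : z ∈ S then y (S.equivFin ⟨z, h⟩) else false with hO
  have hOprop : ∀ z, (∃ b, ∀ y, O y z = b) ∨ ∃ i, ∀ y, O y z = y i := by
    intro z
    by_cases h : z ∈ S
    · exact Or.inr ⟨S.equivFin ⟨z, h⟩, fun y => by simp only [hO, dif_pos h]⟩
    · exact Or.inl ⟨false, fun y => by simp only [hO, dif_neg h]⟩
  set f : (Fin N → Bool) → ℝ := fun y => p (O y) with hf
  have hloc' : ∀ A : Oracle, p A = f (fun i => A (e i)) := by
    intro A
    rw [hf]
    refine hloc _ _ fun z hz => ?_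
    simp only [hO, dif_pos (hmem z hz), he, Equiv.symm_apply_apply]
  obtain ⟨T, hT1, hT2⟩ := h N ⟨O, hOprop⟩
  have hW : WrongA p (T.map e) = {A : List Bool → Bool |
      (fun y : Fin N → Bool => (2 / 3 ≤ f y ∧ T.eval y = false) ∨ (f y ≤ 1 / 3 ∧ T.eval y = true))
        (fun i => A (e i))} := by
    ext A
    simp only [WrongA, Set.mem_ofPred_eq, DTree.eval_map, hloc' A]
  classical
  obtain ⟨hm, hp⟩ := Pool.Agent.H54.RQ.c1 N e hinj
    (fun y : Fin N → Bool => (2 / 3 ≤ f y ∧ T.eval y = false) ∨ (f y ≤ 1 / 3 ∧ T.eval y = true))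
    (fun _ => Classical.propDecidable _)
  refine ⟨T.map e, ?_, ?_, ?_⟩
  · rw [DTree.depth_map]
    exact hT1
  · rw [hW]; exact hm
  · rw [hW, hp]
    refine le_trans (le_of_eq ?_) hT2
    refine EE_congr fun y => ?_
    unfold bad
    split_ifs <;> rfl

end Pool.Agent.W938.Hyb
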